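import Pool.Agent.LambdaFV.Chain

/-!
# Algebra of the monomials of the cell masses
-/

open Finset

namespace Pool.Agent.LambdaFV

/-- Effect of a reproduction event of size `u` on the monomial `x ^ m * y * z` (divided by `y z`). -/
noncomputable def brk (u : ℝ) (m : ℕ) (x : ℝ) : ℝ :=
  (1 - u) ^ (m + 2) * x ^ m + (1 - u) ^ 2 * x * ((u + (1 - u) * x) ^ m - ((1 - u) * x) ^ m)
    + 2 * u * (1 - u) ^ (m + 1) * x ^ m - x ^ m

lemma brk_eq (u : ℝ) (s : ℕ) (x : ℝ) : brk u (s + 1) x =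
    ∑ i ∈ range s, ((s + 1).choose i : ℝ) * u ^ (s + 1 - i) * (1 - u) ^ (i + 2) * x ^ (i + 1)
      - B u s * x ^ (s + 1) := by
  have h : ((1 - u) * x + u) ^ (s + 1) = ∑ i ∈ range s, ((1 - u) * x) ^ i * u ^ (s + 1 - i) *
      ((s + 1).choose i : ℝ) + ((1 - u) * x) ^ s * u * (s + 1) + ((1 - u) * x) ^ (s + 1) := by
    rw [add_pow, Finset.sum_range_succ, Finset.sum_range_succ]
    have e1 : s + 1 - s = 1 := by omega
    rw [e1]
    simp
  have h2 : ∑ i ∈ range s, ((s + 1).choose i : ℝ) * u ^ (s + 1 - i) * (1 - u) ^ (i + 2) * x ^ (i + 1)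
      = (1 - u) ^ 2 * x * ∑ i ∈ range s, ((1 - u) * x) ^ i * u ^ (s + 1 - i) *
      ((s + 1).choose i : ℝ) := by
    rw [Finset.mul_sum]
    apply Finset.sum_congr rfl
    intro i _
    rw [mul_pow]
    ring
  rw [h2]
  unfold brk B
  rw [add_comm u ((1 - u) * x), h, mul_pow, mul_pow]
  ring

lemma sum_brk_eq {u : ℝ} {b : ℕ → ℝ} {T : ℕ} (hb : ∀ s ≥ T, b s = 0) (x : ℝ) :
    ∑ s ∈ range T, b s * ((s : ℝ) + 1) * brk u (s + 1) x =
      ∑ s ∈ range T, ((s : ℝ) + 1) * x ^ (s + 1) * Lop u b s := by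
  have hL : ∀ s, Lop u b s = ∑ p ∈ range (T - (s + 1)), K u s p * b (s + p + 1) - B u s * b s := by
    intro s
    unfold Lop
    rw [tsum_eq_sum (s := range (T - (s + 1)))]
    intro p hp
    rw [hb _ (by rw [Finset.mem_range] at hp; omega), mul_zero]
  have h1 : ∑ s ∈ range T, b s * ((s : ℝ) + 1) * brk u (s + 1) x =
      ∑ s ∈ range T, ∑ i ∈ range s, b s * ((s : ℝ) + 1) *
        (((s + 1).choose i : ℝ) * u ^ (s + 1 - i) * (1 - u) ^ (i + 2) * x ^ (i + 1))
      - ∑ s ∈ range T, b s * ((s : ℝ) + 1) * (B u s * x ^ (s + 1)) := by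
    rw [← Finset.sum_sub_distrib]
    apply Finset.sum_congr rfl
    intro s _
    rw [brk_eq, mul_sub, Finset.mul_sum]
  have h2 : ∑ s ∈ range T, ∑ i ∈ range s, b s * ((s : ℝ) + 1) *
        (((s + 1).choose i : ℝ) * u ^ (s + 1 - i) * (1 - u) ^ (i + 2) * x ^ (i + 1)) =
      ∑ i ∈ range T, ∑ s ∈ Ico (i + 1) T, b s * ((s : ℝ) + 1) *
        (((s + 1).choose i : ℝ) * u ^ (s + 1 - i) * (1 - u) ^ (i + 2) * x ^ (i + 1)) := by
    apply Finset.sum_comm'
    intro s i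
    simp only [Finset.mem_range, Finset.mem_Ico]
    omega
  rw [h1, h2, ← Finset.sum_sub_distrib]
  apply Finset.sum_congr rfl
  intro s _
  rw [hL, mul_sub, Finset.mul_sum, Finset.sum_Ico_eq_sum_range]
  congr 1
  · apply Finset.sum_congr rfl
    intro p _
    have e1 : s + 1 + p + 1 - s = p + 2 := by omega
    have e2 : s + 1 + p + 1 = p + 2 + s := by omega
    have e3 : s + 1 + p = s + p + 1 := by omega
    rw [e1, e2, e3]
    unfold K Kfull
    have hs : (s : ℝ) + 1 ≠ 0 := by positivity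
    push_cast
    field_simp
    ring
  · ring

end Pool.Agent.LambdaFV
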