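import Pool.Agent.LambdaFV.Chain

/-!
# Summing the single event estimates over the atoms of the measure `ν`
-/

open Finset

namespace Pool.Agent.LambdaFV

/-- Sizes of the small atoms. -/
noncomputable def us (n : ℕ) : ℝ := (1 / 2) ^ (n + 1)
/-- Weights of the small atoms. -/
noncomputable def ws (n : ℕ) : ℝ := 2 ^ (n + 1) / (n + 1)
/-- Sizes of the big atoms. -/
noncomputable def ub (i : ℕ) : ℝ := 1 - (1 / 2) ^ 4 ^ (i + 2)
/-- Weights of the big atoms. -/
noncomputable def wb (i : ℕ) : ℝ := 64 * (1 / 2) ^ i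

lemma us_pos (n : ℕ) : 0 < us n := by unfold us; positivity
lemma us_le (n : ℕ) : us n ≤ 1 / 2 := by
  unfold us
  calc ((1 : ℝ) / 2) ^ (n + 1) ≤ (1 / 2) ^ 1 :=
        pow_le_pow_of_le_one (by norm_num) (by norm_num) (by omega)
    _ = _ := by norm_num
lemma ws_pos (n : ℕ) : 0 < ws n := by unfold ws; positivity
lemma wb_pos (n : ℕ) : 0 < wb n := by unfold wb; positivity
lemma ws_mul_us (n : ℕ) : ws n * us n = 1 / (n + 1) := by
  unfold ws us
  rw [one_div, inv_pow]
  field_simp
lemma eps_le (i : ℕ) : ((1 : ℝ) / 2) ^ 4 ^ (i + 2) ≤ (1 / 2) ^ 16 := by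
  apply pow_le_pow_of_le_one (by norm_num) (by norm_num)
  calc 16 = 4 ^ 2 := by norm_num
    _ ≤ 4 ^ (i + 2) := Nat.pow_le_pow_right (by norm_num) (by omega)
lemma ub_nonneg (i : ℕ) : 0 ≤ ub i := by
  unfold ub
  have := eps_le i
  norm_num at this ⊢
  linarith
lemma ub_pos (i : ℕ) : 0 < ub i := by
  unfold ub
  have := eps_le i
  norm_num at this ⊢
  linarith
lemma ub_lt_one (i : ℕ) : ub i < 1 := by
  unfold ub
  have : (0 : ℝ) < (1 / 2) ^ 4 ^ (i + 2) := by positivity
  linarith

lemma B_nonneg {u : ℝ} (h0 : 0 ≤ u) (h1 : u < 1) (s : ℕ) : 0 ≤ B u s := by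
  have h := (hasSum_K h0 h1 s)
  have h2 : 0 ≤ B u s - kap u s := h.nonneg fun p => K_nonneg h0 h1.le s p
  have h3 := kap_nonneg h0 h1 s
  linarith

lemma B_le {u : ℝ} (h0 : 0 ≤ u) (h1 : u < 1) (s : ℕ) : B u s ≤ ((s + 2) * u) ^ 2 := by
  have h := one_add_mul_le_pow (a := -u) (by linarith) (s + 2)
  push_cast at h
  have h3 : (1 - ((s : ℝ) + 2) * u) * (1 + (s + 2) * u) ≤ (1 - u) ^ (s + 2) * (1 + (s + 2) * u) := by
    apply mul_le_mul_of_nonneg_right _ (by positivity)
    have e : 1 + -u = 1 - u := by ring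
    rw [e] at h
    linarith
  unfold B
  nlinarith

lemma abs_Lop_le {u : ℝ} (h0 : 0 ≤ u) (h1 : u < 1) (s : ℕ) {b : ℕ → ℝ} (hb0 : ∀ s, 0 ≤ b s)
    (hb1 : ∀ s, b s ≤ 1) : |Lop u b s| ≤ B u s := by
  have hK := hasSum_K h0 h1 s
  have h2 : 0 ≤ ∑' p, K u s p * b (s + p + 1) :=
    tsum_nonneg fun p => mul_nonneg (K_nonneg h0 h1.le s p) (hb0 _)
  have h3 : ∑' p, K u s p * b (s + p + 1) ≤ B u s - kap u s := by
    rw [← hK.tsum_eq]
    apply (summable_K_mul h0 h1 s (C := 1) fun p => by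
      rw [abs_of_nonneg (hb0 _)]; exact hb1 _).tsum_le_tsum _ hK.summable
    intro p
    exact mul_le_of_le_one_right (K_nonneg h0 h1.le s p) (hb1 _)
  have h4 := kap_nonneg h0 h1 s
  have h5 : 0 ≤ B u s * b s := mul_nonneg (B_nonneg h0 h1 s) (hb0 _)
  have h6 : B u s * b s ≤ B u s := mul_le_of_le_one_right (B_nonneg h0 h1 s) (hb1 _)
  unfold Lop
  rw [abs_le]; constructor <;> linarith

lemma summable_small {f : ℝ → ℝ} {C : ℝ} (hf : ∀ n, |f (us n)| ≤ C * us n ^ 2) :
    Summable fun n => ws n * f (us n) := by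
  have hC : 0 ≤ C := by
    have h := (abs_nonneg _).trans (hf 0)
    have h2 : 0 < us 0 ^ 2 := pow_pos (us_pos 0) 2
    exact nonneg_of_mul_nonneg_left h h2
  refine Summable.of_norm_bounded (g := fun n => C * (1 / 2) ^ (n + 1)) ?_ ?_
  · exact ((summable_nat_add_iff 1).2 (summable_geometric_two)).mul_left C
  · intro n
    rw [Real.norm_eq_abs, abs_mul, abs_of_pos (ws_pos n)]
    calc ws n * |f (us n)| ≤ ws n * (C * us n ^ 2) := mul_le_mul_of_nonneg_left (hf n) (ws_pos n).le
      _ = C * us n * (ws n * us n) := by ring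
      _ = C * us n * (1 / (n + 1)) := by rw [ws_mul_us]
      _ ≤ C * us n * 1 := by
          apply mul_le_mul_of_nonneg_left _ (mul_nonneg hC (us_pos n).le)
          rw [div_le_one (by positivity)]
          have : (0 : ℝ) ≤ n := by positivity
          linarith
      _ = _ := by unfold us; ring

lemma summable_big {f : ℝ → ℝ} {C : ℝ} (hf : ∀ n, |f (ub n)| ≤ C) :
    Summable fun n => wb n * f (ub n) := by
  refine Summable.of_norm_bounded (g := fun n => 64 * C * (1 / 2) ^ n) ?_ ?_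
  · exact summable_geometric_two.mul_left _
  · intro n
    rw [Real.norm_eq_abs, abs_mul, abs_of_pos (wb_pos n)]
    calc wb n * |f (ub n)| ≤ wb n * C := mul_le_mul_of_nonneg_left (hf n) (wb_pos n).le
      _ = _ := by unfold wb; ring

lemma summable_small_Lop (s : ℕ) {b : ℕ → ℝ} (hb0 : ∀ s, 0 ≤ b s) (hb1 : ∀ s, b s ≤ 1) :
    Summable fun n => ws n * Lop (us n) b s := by
  apply summable_small (f := fun u => Lop u b s) (C := ((s : ℝ) + 2) ^ 2)
  intro n
  have h1 : us n < 1 := by have := us_le n; linarith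
  refine (abs_Lop_le (us_pos n).le h1 s hb0 hb1).trans ?_
  rw [← mul_pow]
  exact B_le (us_pos n).le h1 s

lemma summable_big_Lop (s : ℕ) {b : ℕ → ℝ} (hb0 : ∀ s, 0 ≤ b s) (hb1 : ∀ s, b s ≤ 1) :
    Summable fun n => wb n * Lop (ub n) b s := by
  apply summable_big (f := fun u => Lop u b s) (C := ((s : ℝ) + 2) ^ 2)
  intro n
  refine (abs_Lop_le (ub_nonneg n) (ub_lt_one n) s hb0 hb1).trans ?_
  refine (B_le (ub_nonneg n) (ub_lt_one n) s).trans ?_
  rw [mul_pow]
  apply mul_le_of_le_one_right (by positivity)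
  exact pow_le_one₀ (ub_nonneg n) (ub_lt_one n).le

lemma sum_two_pow_div (M : ℕ) :
    ∑ n ∈ range M, (2 : ℝ) ^ (n + 1) / (n + 1) ≤ 4 * 2 ^ M / (M + 1) := by
  rcases Nat.lt_or_ge M 2 with h | h
  · interval_cases M <;> norm_num
  · induction M, h using Nat.le_induction with
    | base => norm_num [Finset.sum_range_succ]
    | succ M hM ih =>
      rw [Finset.sum_range_succ]
      have hM' : (2 : ℝ) ≤ M := by exact_mod_cast hM
      calc _ ≤ 4 * 2 ^ M / ((M : ℝ) + 1) + 2 ^ (M + 1) / (M + 1) := by linarith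
        _ = 6 * 2 ^ M / ((M : ℝ) + 1) := by rw [pow_succ]; ring
        _ ≤ 4 * 2 ^ (M + 1) / (((M + 1 : ℕ) : ℝ) + 1) := by
            rw [div_le_div_iff₀ (by positivity) (by positivity)]
            push_cast
            have h2 : (0 : ℝ) < 2 ^ M := by positivity
            rw [pow_succ]
            nlinarith

lemma tsum_split_le {f : ℕ → ℝ} (hf : Summable f) (M : ℕ) {A : ℝ}
    (h : ∀ n, f (n + M) ≤ A * (1 / 2) ^ n) : ∑' n, f n ≤ ∑ n ∈ range M, f n + 2 * A := by
  rw [← hf.sum_add_tsum_nat_add M]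
  have h1 : ∑' n, f (n + M) ≤ ∑' n, A * (1 / 2) ^ n :=
    ((summable_nat_add_iff M).2 hf).tsum_le_tsum h (summable_geometric_two.mul_left A)
  rw [tsum_mul_left, tsum_geometric_two] at h1
  linarith

lemma small_lower {η : ℝ} (hη : 0 < η) (s : ℕ) (hs : 0 < af η s) :
    -(6 / ((Nat.log 2 (s + 1) : ℝ) + 1) + 32 * η) ≤ ∑' n, ws n * Lop (us n) (af η) s := by
  set M := Nat.log 2 (s + 1) with hM
  have hM1 : (2 : ℝ) ^ M ≤ s + 1 := by
    have : 2 ^ M ≤ s + 1 := Nat.pow_log_le_self 2 (by omega)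
    exact_mod_cast this
  have hM2 : (s : ℝ) + 1 ≤ 2 ^ (M + 1) := by
    have : s + 1 < 2 ^ (M + 1) := Nat.lt_pow_succ_log_self (by norm_num) _
    exact_mod_cast this.le
  have hs0 : (0 : ℝ) ≤ s := by positivity
  have hL := log_succ_nonneg s
  have hsum := summable_small_Lop s (af_nonneg η) (af_le_one hη.le)
  have hMlog : (M : ℝ) ≤ 2 * (1 + Real.log (s + 1)) := by
    have h1 : Real.log (2 ^ M) ≤ Real.log (s + 1) := Real.log_le_log (by positivity) hM1
    rw [Real.log_pow] at h1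
    have h2 := Real.log_two_gt_d9
    have h3 : (0 : ℝ) ≤ M := by positivity
    nlinarith
  have hlow : ∀ n, -kap (us n) s - η * ∑' p, K (us n) s p * (V (s + p + 1) - V s) ≤
      Lop (us n) (af η) s := by
    intro n
    have h1 : us n < 1 := by have := us_le n; linarith
    have h2 := Lop_lower (us_pos n).le h1 hη.le s hs
    have h3 := tsum_G_nonneg (us_pos n).le h1 s
    linarith
  have hneg : Summable fun n => -(ws n * Lop (us n) (af η) s) := hsum.neg
  have hA : ∀ n, -(ws (n + M) * Lop (us (n + M)) (af η) s) ≤ (1 + 12 * η) / (M + 1) * (1 / 2) ^ n := by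
    intro n
    have h1 : us (n + M) < 1 := by have := us_le (n + M); linarith
    have h2 := hlow (n + M)
    have h3 := kap_le2 (us_pos (n + M)).le h1 s
    have h4 := tsum_V_small2 (us_pos (n + M)).le (us_le _) s
    have h5 : -Lop (us (n + M)) (af η) s ≤ (1 + 12 * η) * (s + 1) * us (n + M) ^ 2 := by
      have := mul_le_mul_of_nonneg_left h4 hη.le
      nlinarith
    calc -(ws (n + M) * Lop (us (n + M)) (af η) s) = ws (n + M) * (-Lop (us (n + M)) (af η) s) := by ring
      _ ≤ ws (n + M) * ((1 + 12 * η) * (s + 1) * us (n + M) ^ 2) :=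
          mul_le_mul_of_nonneg_left h5 (ws_pos _).le
      _ = (1 + 12 * η) * (s + 1) * us (n + M) * (ws (n + M) * us (n + M)) := by ring
      _ = (1 + 12 * η) * (s + 1) * us (n + M) * (1 / (((n + M : ℕ) : ℝ) + 1)) := by rw [ws_mul_us]
      _ ≤ (1 + 12 * η) * (s + 1) * us (n + M) * (1 / (M + 1)) := by
          apply mul_le_mul_of_nonneg_left _ (by have := us_pos (n + M); positivity)
          apply one_div_le_one_div_of_le (by positivity)
          push_cast
          have : (0 : ℝ) ≤ n := by positivity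
          linarith
      _ ≤ (1 + 12 * η) * 2 ^ (M + 1) * us (n + M) * (1 / (M + 1)) := by
          apply mul_le_mul_of_nonneg_right _ (by positivity)
          apply mul_le_mul_of_nonneg_right _ (us_pos _).le
          apply mul_le_mul_of_nonneg_left hM2 (by positivity)
      _ = _ := by
          unfold us
          rw [show n + M + 1 = n + (M + 1) by ring, pow_add, one_div, inv_pow, inv_pow]
          field_simp
          ring
  have hsplit := tsum_split_le hneg M hA
  rw [tsum_neg] at hsplit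
  have hfirst : ∑ n ∈ range M, -(ws n * Lop (us n) (af η) s) ≤ 4 / (M + 1) + 8 * η := by
    have h1 : ∀ n ∈ range M, -(ws n * Lop (us n) (af η) s) ≤
        (1 / (s + 1)) * (2 ^ (n + 1) / (n + 1)) + 4 * η / (1 + Real.log (s + 1)) := by
      intro n _
      have h1 : us n < 1 := by have := us_le n; linarith
      have h2 := hlow n
      have h3 := kap_le1 (us_pos n).le h1 s
      have h3' : kap (us n) s ≤ 1 / (s + 1) := by
        refine h3.trans ?_
        apply div_le_div_of_nonneg_right _ (by positivity)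
        have := us_pos n
        linarith
      have h4 := tsum_V_small1 (us_pos n).le (us_le _) s
      have h5 : -Lop (us n) (af η) s ≤ 1 / (s + 1) + η * (4 * us n / (1 + Real.log (s + 1))) := by
        have := mul_le_mul_of_nonneg_left h4 hη.le
        linarith
      calc -(ws n * Lop (us n) (af η) s) = ws n * (-Lop (us n) (af η) s) := by ring
        _ ≤ ws n * (1 / (s + 1) + η * (4 * us n / (1 + Real.log (s + 1)))) :=
            mul_le_mul_of_nonneg_left h5 (ws_pos _).le
        _ = (1 / (s + 1)) * ws n + 4 * η / (1 + Real.log (s + 1)) * (ws n * us n) := by ring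
        _ = (1 / (s + 1)) * ws n + 4 * η / (1 + Real.log (s + 1)) * (1 / (n + 1)) := by
            rw [ws_mul_us]
        _ ≤ (1 / (s + 1)) * ws n + 4 * η / (1 + Real.log (s + 1)) * 1 := by
            have : (1 : ℝ) / (n + 1) ≤ 1 := by
              rw [div_le_one (by positivity)]
              have : (0 : ℝ) ≤ n := by positivity
              linarith
            have h7 : 0 ≤ 4 * η / (1 + Real.log (s + 1)) := by positivity
            have := mul_le_mul_of_nonneg_left this h7
            linarith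
        _ = _ := by rw [mul_one]; rfl
    refine (Finset.sum_le_sum h1).trans ?_
    rw [Finset.sum_add_distrib, ← Finset.mul_sum, Finset.sum_const, card_range, nsmul_eq_mul]
    apply add_le_add
    · calc (1 : ℝ) / (s + 1) * ∑ n ∈ range M, (2 : ℝ) ^ (n + 1) / (n + 1)
          ≤ 1 / (2 ^ M) * (4 * 2 ^ M / (M + 1)) := by
            apply mul_le_mul _ (sum_two_pow_div M) _ (by positivity)
            · exact one_div_le_one_div_of_le (by positivity) hM1
            · exact Finset.sum_nonneg fun n _ => by positivity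
        _ = _ := by field_simp
    · rw [mul_div_assoc', div_le_iff₀ (by positivity)]
      nlinarith
  have e : (1 + 12 * η) / ((M : ℝ) + 1) ≤ 1 / (M + 1) + 12 * η := by
    rw [add_div]
    have : 12 * η / ((M : ℝ) + 1) ≤ 12 * η := div_le_self (by positivity) (by
      have : (0 : ℝ) ≤ M := by positivity
      linarith)
    linarith
  have e2 : 6 / ((M : ℝ) + 1) = 4 / (M + 1) + 2 * (1 / (M + 1)) := by ring
  rw [e2]
  linarith

lemma log_four_pow_le (i : ℕ) : Real.log (((4 ^ (i + 2) : ℕ) : ℝ) + 2) ≤ 2 * i + 6 := by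
  have h1 : ((4 ^ (i + 2) : ℕ) : ℝ) + 2 ≤ 4 ^ (i + 3) := by
    push_cast
    have : (1 : ℝ) ≤ 4 ^ i := one_le_pow₀ (by norm_num)
    rw [pow_add, pow_add]
    norm_num
    linarith
  have h2 : Real.log (((4 ^ (i + 2) : ℕ) : ℝ) + 2) ≤ Real.log (4 ^ (i + 3)) :=
    Real.log_le_log (by positivity) h1
  rw [Real.log_pow] at h2
  have h3 : Real.log 4 ≤ 2 := by
    have : (4 : ℝ) = 2 ^ 2 := by norm_num
    rw [this, Real.log_pow]
    have := Real.log_two_lt_d9
    push_cast
    linarith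
  push_cast at h2 ⊢
  have h4 : (0 : ℝ) ≤ i := by positivity
  nlinarith

lemma big_lower {η : ℝ} (hη : 0 < η) (s : ℕ) (hs : 0 < af η s) :
    8 * (1 / 4) ^ ell s - 1 / 512 / (s + 1) - 1280 * η ≤ ∑' i, wb i * Lop (ub i) (af η) s := by
  have hsum := summable_big_Lop s (af_nonneg η) (af_le_one hη.le)
  have hs0 : (0 : ℝ) ≤ s := by positivity
  have hg1 : HasSum (fun i : ℕ => (if i = ell s then 8 * ((1 : ℝ) / 4) ^ ell s else 0))
      (8 * (1 / 4) ^ ell s) := hasSum_ite_eq (ell s) _
  have hg2 : HasSum (fun i : ℕ => 64 * (1 / 2 : ℝ) ^ 16 / (s + 1) * (1 / 2) ^ i)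
      (64 * (1 / 2 : ℝ) ^ 16 / (s + 1) * 2) := hasSum_geometric_two.mul_left _
  have hg3 : HasSum (fun i : ℕ => 128 * η * (i * (1 / 2 : ℝ) ^ i)) (128 * η * 2) := by
    have h := hasSum_coe_mul_geometric_of_norm_lt_one (𝕜 := ℝ) (r := 1 / 2) (by norm_num)
    norm_num at h
    simpa using h.mul_left (128 * η)
  have hg4 : HasSum (fun i : ℕ => 512 * η * (1 / 2 : ℝ) ^ i) (512 * η * 2) :=
    hasSum_geometric_two.mul_left _
  have hg := ((hg1.sub hg2).sub hg3).sub hg4
  have e : 8 * ((1 : ℝ) / 4) ^ ell s - 64 * (1 / 2 : ℝ) ^ 16 / (s + 1) * 2 - 128 * η * 2 -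
      512 * η * 2 = 8 * (1 / 4) ^ ell s - 1 / 512 / (s + 1) - 1280 * η := by
    ring
  rw [e] at hg
  rw [← hg.tsum_eq]
  apply hg.summable.tsum_le_tsum _ hsum
  intro i
  have h1 := Lop_lower (ub_nonneg i) (ub_lt_one i) hη.le s hs
  have h2 : kap (ub i) s ≤ (1 / 2) ^ 16 / (s + 1) := by
    refine (kap_le1 (ub_nonneg i) (ub_lt_one i) s).trans ?_
    apply div_le_div_of_nonneg_right _ (by positivity)
    have : 1 - ub i = (1 / 2) ^ 4 ^ (i + 2) := by unfold ub; ring
    rw [this]; exact eps_le i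
  have h3 : ∑' p, K (ub i) s p * (V (s + p + 1) - V s) ≤ 2 * i + 8 := by
    have h4 := tsum_V_big (4 ^ (i + 2)) s
    have h5 := log_four_pow_le i
    have h6 : ub i = 1 - (1 / 2) ^ 4 ^ (i + 2) := rfl
    rw [h6]
    linarith
  have h3' := mul_le_mul_of_nonneg_left h3 hη.le
  have h4 : (if i = ell s then 8 * ((1 : ℝ) / 4) ^ ell s else 0) ≤
      wb i * ∑' p, K (ub i) s p * (G s - G (s + p + 1)) := by
    split_ifs with h
    · have h5 := tsum_G_big s
      have h6 : ub i = 1 - (1 / 2) ^ 4 ^ (ell s + 2) := by rw [← h]; rfl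
      rw [h6]
      calc 8 * ((1 : ℝ) / 4) ^ ell s = wb i * (1 / 2) ^ (ell s + 3) := by
            unfold wb
            rw [h, show (1 : ℝ) / 4 = (1 / 2) * (1 / 2) by norm_num, mul_pow, pow_add]
            ring
        _ ≤ _ := mul_le_mul_of_nonneg_left h5 (wb_pos i).le
    · exact mul_nonneg (wb_pos i).le (tsum_G_nonneg (ub_nonneg i) (ub_lt_one i) s)
  have h5 := mul_le_mul_of_nonneg_left h1 (wb_pos i).le
  have h6 : wb i * kap (ub i) s ≤ 64 * (1 / 2 : ℝ) ^ 16 / (s + 1) * (1 / 2) ^ i := by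
    calc _ ≤ wb i * ((1 / 2) ^ 16 / (s + 1)) := mul_le_mul_of_nonneg_left h2 (wb_pos i).le
      _ = _ := by unfold wb; ring
  have h7 : wb i * (η * ∑' p, K (ub i) s p * (V (s + p + 1) - V s)) ≤
      128 * η * (i * (1 / 2 : ℝ) ^ i) + 512 * η * (1 / 2 : ℝ) ^ i := by
    calc _ ≤ wb i * (η * (2 * i + 8)) := mul_le_mul_of_nonneg_left h3' (wb_pos i).le
      _ = _ := by unfold wb; ring
  nlinarith [h4, h5, h6, h7]

/-- The key deterministic estimate. -/
theorem total_lower {η : ℝ} (hη : 0 < η) (s : ℕ) :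
    -(1312 * η) ≤ ∑' n, ws n * Lop (us n) (af η) s + ∑' i, wb i * Lop (ub i) (af η) s := by
  rcases (af_nonneg η s).eq_or_lt with h | h
  · have h1 : ∀ u, 0 ≤ u → u < 1 → 0 ≤ Lop u (af η) s := by
      intro u h0 h1
      unfold Lop
      rw [← h, mul_zero, sub_zero]
      exact tsum_nonneg fun p => mul_nonneg (K_nonneg h0 h1.le s p) (af_nonneg _ _)
    have h2 : 0 ≤ ∑' n, ws n * Lop (us n) (af η) s := tsum_nonneg fun n =>
      mul_nonneg (ws_pos n).le (h1 _ (us_pos n).le (by have := us_le n; linarith))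
    have h3 : 0 ≤ ∑' n, wb n * Lop (ub n) (af η) s := tsum_nonneg fun n =>
      mul_nonneg (wb_pos n).le (h1 _ (ub_nonneg n) (ub_lt_one n))
    linarith
  · have h1 := small_lower hη s h
    have h2 := big_lower hη s h
    have h3 : 6 / ((Nat.log 2 (s + 1) : ℝ) + 1) ≤ 6 * (1 / 4) ^ ell s := by
      rw [div_le_iff₀ (by positivity)]
      have h4 : ((4 : ℝ)) ^ ell s ≤ (Nat.log 2 (s + 1) : ℝ) + 1 := by
        have := (ell_spec s).1
        exact_mod_cast this
      have h5 : ((1 : ℝ) / 4) ^ ell s * 4 ^ ell s = 1 := by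
        rw [← mul_pow]; norm_num
      have h6 : (0 : ℝ) < (1 / 4) ^ ell s := by positivity
      have := mul_le_mul_of_nonneg_left h4 h6.le
      linarith
    have h7 : 1 / 512 / ((s : ℝ) + 1) ≤ 1 / 512 * (1 / 4) ^ ell s := by
      rw [div_le_iff₀ (by positivity)]
      have h4 : ((4 : ℝ)) ^ ell s ≤ (s : ℝ) + 1 := by
        have h8 := (ell_spec s).1
        have h9 : Nat.log 2 (s + 1) + 1 ≤ s + 1 := by
          have : Nat.log 2 (s + 1) < s + 1 := Nat.log_lt_self 2 (by omega)
          omega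
        exact_mod_cast h8.trans h9
      have h5 : ((1 : ℝ) / 4) ^ ell s * 4 ^ ell s = 1 := by
        rw [← mul_pow]; norm_num
      have h6 : (0 : ℝ) < (1 / 4) ^ ell s := by positivity
      have := mul_le_mul_of_nonneg_left h4 h6.le
      linarith
    have h8 : (0 : ℝ) < (1 / 4) ^ ell s := by positivity
    linarith

end Pool.Agent.LambdaFV
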