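import Mathlib

/-!
# Functions on the simplex of cell masses
-/

open Finset

namespace Pool.Agent.LambdaFV

variable {N : ℕ}

/-- `∑ r_j r_k` over distinct `j, k`, both different from `i`. -/
noncomputable def W (r : Fin N → ℝ) (i : Fin N) : ℝ :=
  ∑ j ∈ univ.erase i, ∑ k ∈ (univ.erase i).erase j, r j * r k

/-- The polynomial functional. -/
noncomputable def Fb (b : ℕ → ℝ) (T : ℕ) (r : Fin N → ℝ) : ℝ :=
  ∑ i, W r i * ∑ s ∈ range T, b s * ((s : ℝ) + 1) * r i ^ (s + 1)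

/-- The limiting functional. -/
noncomputable def S (r : Fin N → ℝ) : ℝ := ∑ i, W r i * (r i / (1 - r i) ^ 2)

/-- The simplex. -/
structure InSimplex (r : Fin N → ℝ) : Prop where
  nonneg : ∀ i, 0 ≤ r i
  sum : ∑ i, r i = 1

lemma InSimplex.le_one {r : Fin N → ℝ} (h : InSimplex r) (i : Fin N) : r i ≤ 1 := by
  rw [← h.sum]
  exact Finset.single_le_sum (f := r) (fun j _ => h.nonneg j) (Finset.mem_univ i)

lemma W_eq {r : Fin N → ℝ} (h : InSimplex r) (i : Fin N) :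
    W r i = (1 - r i) ^ 2 - ∑ j ∈ univ.erase i, r j ^ 2 := by
  have h1 : ∑ j ∈ univ.erase i, r j = 1 - r i := by
    rw [← h.sum, Finset.sum_erase_eq_sub (Finset.mem_univ i)]
  unfold W
  have h2 : ∀ j ∈ univ.erase i, ∑ k ∈ (univ.erase i).erase j, r j * r k =
      r j * (1 - r i) - r j ^ 2 := by
    intro j hj
    rw [← Finset.mul_sum, Finset.sum_erase_eq_sub hj, h1]
    ring
  rw [Finset.sum_congr rfl h2, Finset.sum_sub_distrib, ← Finset.sum_mul, h1]
  ring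

lemma W_nonneg {r : Fin N → ℝ} (h : InSimplex r) (i : Fin N) : 0 ≤ W r i :=
  Finset.sum_nonneg fun j _ => Finset.sum_nonneg fun k _ => mul_nonneg (h.nonneg j) (h.nonneg k)

lemma W_le {r : Fin N → ℝ} (h : InSimplex r) (i : Fin N) : W r i ≤ (1 - r i) ^ 2 := by
  rw [W_eq h]
  have : 0 ≤ ∑ j ∈ univ.erase i, r j ^ 2 := Finset.sum_nonneg fun j _ => sq_nonneg _
  linarith

lemma W_le2 {r : Fin N → ℝ} (h : InSimplex r) {i j : Fin N} (hij : j ≠ i) :
    W r i ≤ (1 - r i) ^ 2 - r j ^ 2 := by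
  rw [W_eq h]
  have : r j ^ 2 ≤ ∑ j ∈ univ.erase i, r j ^ 2 :=
    Finset.single_le_sum (f := fun j => r j ^ 2) (fun j _ => sq_nonneg _)
      (Finset.mem_erase.2 ⟨hij, Finset.mem_univ _⟩)
  linarith

lemma sum_le_geom {x : ℝ} (h0 : 0 ≤ x) (h1 : x < 1) {b : ℕ → ℝ} (hb0 : ∀ s, 0 ≤ b s)
    (hb1 : ∀ s, b s ≤ 1) (T : ℕ) :
    ∑ s ∈ range T, b s * ((s : ℝ) + 1) * x ^ (s + 1) ≤ x / (1 - x) ^ 2 := by
  have hn : ‖x‖ < 1 := by rw [Real.norm_eq_abs, abs_of_nonneg h0]; exact h1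
  have h := hasSum_coe_mul_geometric_of_norm_lt_one hn
  have h2 := (hasSum_nat_add_iff' (f := fun n : ℕ => (n : ℝ) * x ^ n) 1).2 h
  simp only [Finset.range_one, Finset.sum_singleton, Nat.cast_zero, zero_mul, sub_zero] at h2
  calc ∑ s ∈ range T, b s * ((s : ℝ) + 1) * x ^ (s + 1) ≤
      ∑ s ∈ range T, ((s + 1 : ℕ) : ℝ) * x ^ (s + 1) := by
        apply Finset.sum_le_sum
        intro s _
        push_cast
        apply mul_le_mul_of_nonneg_right _ (by positivity)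
        exact mul_le_of_le_one_left (by positivity) (hb1 s)
    _ ≤ _ := sum_le_hasSum _ (fun s _ => by positivity) h2

lemma sum_nonneg_b {x : ℝ} (h0 : 0 ≤ x) {b : ℕ → ℝ} (hb0 : ∀ s, 0 ≤ b s) (T : ℕ) :
    0 ≤ ∑ s ∈ range T, b s * ((s : ℝ) + 1) * x ^ (s + 1) :=
  Finset.sum_nonneg fun s _ => mul_nonneg (mul_nonneg (hb0 s) (by positivity)) (by positivity)

lemma Fb_le_S {r : Fin N → ℝ} (h : InSimplex r) {b : ℕ → ℝ} (hb0 : ∀ s, 0 ≤ b s)
    (hb1 : ∀ s, b s ≤ 1) (T : ℕ) : Fb b T r ≤ S r := by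
  unfold Fb S
  apply Finset.sum_le_sum
  intro i _
  rcases (h.le_one i).lt_or_eq with h1 | h1
  · exact mul_le_mul_of_nonneg_left (sum_le_geom (h.nonneg i) h1 hb0 hb1 T) (W_nonneg h i)
  · have h2 := W_le h i
    have h3 := W_nonneg h i
    rw [h1] at h2
    have : W r i = 0 := by
      norm_num at h2
      linarith
    rw [this, zero_mul, zero_mul]

lemma term_nonneg {r : Fin N → ℝ} (h : InSimplex r) (i : Fin N) :
    0 ≤ W r i * (r i / (1 - r i) ^ 2) :=
  mul_nonneg (W_nonneg h i) (div_nonneg (h.nonneg i) (sq_nonneg _))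

lemma term_le {r : Fin N → ℝ} (h : InSimplex r) (i : Fin N) :
    W r i * (r i / (1 - r i) ^ 2) ≤ r i := by
  rcases (h.le_one i).lt_or_eq with h1 | h1
  · have h2 : 0 < (1 - r i) ^ 2 := pow_pos (by linarith) 2
    calc _ ≤ (1 - r i) ^ 2 * (r i / (1 - r i) ^ 2) :=
          mul_le_mul_of_nonneg_right (W_le h i) (div_nonneg (h.nonneg i) h2.le)
      _ = r i := by field_simp
  · rw [h1]; simp

lemma S_nonneg {r : Fin N → ℝ} (h : InSimplex r) : 0 ≤ S r :=
  Finset.sum_nonneg fun i _ => term_nonneg h i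

lemma S_le_one {r : Fin N → ℝ} (h : InSimplex r) : S r ≤ 1 := by
  rw [← h.sum]
  exact Finset.sum_le_sum fun i _ => term_le h i

lemma S_le_pair {r : Fin N → ℝ} (h : InSimplex r) {α β : Fin N} (hab : β ≠ α) (h1 : r α < 1) :
    S r ≤ (1 - r α) + (1 - (r β / (1 - r α)) ^ 2) := by
  unfold S
  rw [← Finset.add_sum_erase _ _ (Finset.mem_univ α), add_comm]
  apply add_le_add
  · calc _ ≤ ∑ i ∈ univ.erase α, r i := Finset.sum_le_sum fun i _ => term_le h i
      _ = 1 - r α := by rw [← h.sum, Finset.sum_erase_eq_sub (Finset.mem_univ α)]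
  · have h2 : 0 < (1 - r α) ^ 2 := pow_pos (by linarith) 2
    have h3 := W_le2 h hab
    have h4 : 0 ≤ W r α := W_nonneg h α
    calc W r α * (r α / (1 - r α) ^ 2) ≤ W r α * (1 / (1 - r α) ^ 2) := by
          apply mul_le_mul_of_nonneg_left _ h4
          exact div_le_div_of_nonneg_right h1.le h2.le
      _ ≤ ((1 - r α) ^ 2 - r β ^ 2) * (1 / (1 - r α) ^ 2) :=
          mul_le_mul_of_nonneg_right h3 (by positivity)
      _ = _ := by
          have : (1 - r α) ≠ 0 := by linarith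
          field_simp

lemma Fb_init {r : Fin N → ℝ} (h : InSimplex r) {b : ℕ → ℝ} (hb0 : ∀ s, 0 ≤ b s)
    (hb : 1 / 2 ≤ b 0) {T : ℕ} (hT : 1 ≤ T) {δ : ℝ} (hδ : ∀ i, r i ≤ δ) (hδ1 : δ ≤ 1) :
    1 / 2 * (1 - 3 * δ) ≤ Fb b T r := by
  have hW : ∀ i, 1 - 3 * δ ≤ W r i := by
    intro i
    rw [W_eq h]
    have h1 : ∑ j ∈ univ.erase i, r j ^ 2 ≤ δ := by
      calc _ ≤ ∑ j, r j ^ 2 := Finset.sum_le_sum_of_subset_of_nonneg (Finset.erase_subset _ _)
            (fun j _ _ => sq_nonneg _)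
        _ ≤ ∑ j, δ * r j := Finset.sum_le_sum fun j _ => by
            have := h.nonneg j
            have := hδ j
            nlinarith
        _ = δ := by rw [← Finset.mul_sum, h.sum, mul_one]
    have h2 := h.nonneg i
    have h3 := hδ i
    nlinarith
  have h1 : ∀ i, 1 / 2 * r i ≤ ∑ s ∈ range T, b s * ((s : ℝ) + 1) * r i ^ (s + 1) := by
    intro i
    have h2 := Finset.single_le_sum (f := fun s : ℕ => b s * ((s : ℝ) + 1) * r i ^ (s + 1))
      (fun s _ => mul_nonneg (mul_nonneg (hb0 s) (by positivity)) (pow_nonneg (h.nonneg i) _))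
      (Finset.mem_range.2 (by omega : 0 < T))
    refine le_trans ?_ h2
    simp only [Nat.cast_zero, zero_add, mul_one, pow_one]
    exact mul_le_mul_of_nonneg_right hb (h.nonneg i)
  unfold Fb
  rcases le_total 0 (1 - 3 * δ) with h0 | h0
  · calc 1 / 2 * (1 - 3 * δ) = ∑ i, (1 - 3 * δ) * (1 / 2 * r i) := by
          rw [← Finset.mul_sum, ← Finset.mul_sum, h.sum]; ring
      _ ≤ _ := Finset.sum_le_sum fun i _ => mul_le_mul (hW i) (h1 i)
          (mul_nonneg (by norm_num) (h.nonneg i)) (W_nonneg h i)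
  · calc 1 / 2 * (1 - 3 * δ) ≤ 0 := by linarith
      _ ≤ _ := Finset.sum_nonneg fun i _ => mul_nonneg (W_nonneg h i)
          (sum_nonneg_b (h.nonneg i) hb0 T)

end Pool.Agent.LambdaFV
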