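import Pool.Agent.LambdaFV.FV
import Pool.Agent.LambdaFV.Algebra
import Pool.Agent.LambdaFV.Simplex

/-!
# Cells of the unit interval
-/

open MeasureTheory Filter Topology Finset
open scoped NNReal ENNReal unitInterval

namespace Pool.Agent.LambdaFV

/-- The index of the cell of `x`, among `M + 1` cells. -/
noncomputable def cell (M : ℕ) (x : I) : Fin (M + 1) :=
  ⟨min ⌊((M : ℝ) + 1) * x⌋₊ M, by omega⟩

/-- The indicator function of a cell. -/
noncomputable def ind (M : ℕ) (l : Fin (M + 1)) (x : I) : ℝ := if cell M x = l then 1 else 0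

/-- The thresholds. -/
noncomputable def thr (M : ℕ) (l : ℕ) : ℝ := if l ≤ M then (l : ℝ) / (M + 1) else 2

lemma cell_eq_iff (M : ℕ) (l : Fin (M + 1)) (x : I) :
    cell M x = l ↔ thr M l ≤ x ∧ ¬ thr M (l + 1) ≤ x := by
  have hl : (l : ℕ) ≤ M := by omega
  have hx0 : (0 : ℝ) ≤ ((M : ℝ) + 1) * x := mul_nonneg (by positivity) x.2.1
  have hx1 : (x : ℝ) ≤ 1 := x.2.2
  have hM : (0 : ℝ) < (M : ℝ) + 1 := by positivity
  unfold cell thr
  rw [Fin.ext_iff]
  simp only [hl, if_true]
  rw [div_le_iff₀ hM, mul_comm (x : ℝ)]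
  rcases hl.lt_or_eq with h | h
  · have h2 : (l : ℕ) + 1 ≤ M := h
    simp only [h2, if_true]
    rw [div_le_iff₀ hM, mul_comm (x : ℝ), not_le]
    push_cast
    constructor
    · intro h3
      have h4 : ⌊((M : ℝ) + 1) * x⌋₊ = l := by
        rcases min_choice ⌊((M : ℝ) + 1) * x⌋₊ M with h5 | h5 <;> omega
      rw [Nat.floor_eq_iff hx0] at h4
      exact h4
    · intro h3
      have h4 : ⌊((M : ℝ) + 1) * x⌋₊ = l := by
        rw [Nat.floor_eq_iff hx0]
        exact h3
      rw [h4]
      omega
  · have h2 : ¬ (l : ℕ) + 1 ≤ M := by omega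
    simp only [h2, if_false]
    constructor
    · intro h3
      refine ⟨?_, by linarith⟩
      have h4 : (l : ℕ) ≤ ⌊((M : ℝ) + 1) * x⌋₊ := by omega
      exact (Nat.le_floor_iff hx0).1 h4
    · intro h3
      have h4 : (l : ℕ) ≤ ⌊((M : ℝ) + 1) * x⌋₊ := (Nat.le_floor_iff hx0).2 h3.1
      omega

lemma thr_mono (M l : ℕ) : thr M l ≤ thr M (l + 1) := by
  unfold thr
  split_ifs with h1 h2 h2
  · push_cast
    apply div_le_div_of_nonneg_right _ (by positivity)
    linarith
  · rw [div_le_iff₀ (by positivity)]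
    have : (l : ℝ) ≤ M := by exact_mod_cast h1
    linarith
  · omega
  · exact le_rfl

/-- If `x` belongs to the cell `l` then `|x - l/(M+1)| ≤ 1/(M+1)`. -/
lemma cell_bounds (M : ℕ) (x : I) :
    ((cell M x : ℕ) : ℝ) / (M + 1) ≤ x ∧ (x : ℝ) ≤ (((cell M x : ℕ) : ℝ) + 1) / (M + 1) := by
  have h := (cell_eq_iff M (cell M x) x).1 rfl
  have hl : (cell M x : ℕ) ≤ M := by omega
  have hM : (0 : ℝ) < (M : ℝ) + 1 := by positivity
  unfold thr at h
  simp only [hl, if_true] at h
  refine ⟨h.1, ?_⟩
  rcases hl.lt_or_eq with h' | h'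
  · have h2 : (cell M x : ℕ) + 1 ≤ M := h'
    simp only [h2, if_true] at h
    push_cast at h
    exact (not_le.1 h.2).le
  · have hx1 : (x : ℝ) ≤ 1 := x.2.2
    rw [h', div_self hM.ne']
    exact hx1

/-- Continuous approximations of `1_{a ≤ x}`. -/
noncomputable def ramp (k : ℕ) (a : ℝ) : C(I, ℝ) :=
  ⟨fun x => max 0 (min 1 (1 + k * ((x : ℝ) - a))), by fun_prop⟩

lemma ramp_mem (k : ℕ) (a : ℝ) (x : I) : 0 ≤ ramp k a x ∧ ramp k a x ≤ 1 := by
  constructor
  · exact le_max_left _ _
  · exact max_le (by norm_num) (min_le_left _ _)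

lemma ramp_tendsto (a : ℝ) (x : I) :
    Tendsto (fun k => ramp k a x) atTop (𝓝 (if a ≤ x then 1 else 0)) := by
  split_ifs with h
  · have : (fun k => ramp k a x) = fun _ => (1 : ℝ) := by
      funext k
      show max 0 (min 1 (1 + k * ((x : ℝ) - a))) = 1
      have h1 : 0 ≤ (k : ℝ) * ((x : ℝ) - a) := mul_nonneg (by positivity) (by linarith)
      rw [min_eq_left (by linarith), max_eq_right (by norm_num)]
    rw [this]
    exact tendsto_const_nhds
  · rw [not_le] at h
    apply tendsto_const_nhds.congr'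
    obtain ⟨n, hn⟩ := exists_nat_gt (1 / (a - x))
    filter_upwards [eventually_ge_atTop n] with k hk
    show 0 = max 0 (min 1 (1 + k * ((x : ℝ) - a)))
    have hk' : (n : ℝ) ≤ k := by exact_mod_cast hk
    have h2 : 0 < a - x := by linarith
    have h1 : 1 ≤ (k : ℝ) * (a - x) := by
      have := (div_lt_iff₀ h2).1 hn
      nlinarith
    have h3 : 1 + (k : ℝ) * ((x : ℝ) - a) ≤ 0 := by nlinarith
    rw [max_eq_left]
    exact (min_le_right _ _).trans h3

/-- Continuous approximations of the indicator of a cell. -/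
noncomputable def approx (M k : ℕ) (l : Fin (M + 1)) : C(I, ℝ) :=
  ramp k (thr M l) - ramp k (thr M (l + 1))

lemma approx_abs (M k : ℕ) (l : Fin (M + 1)) (x : I) : |approx M k l x| ≤ 1 := by
  have h1 := ramp_mem k (thr M l) x
  have h2 := ramp_mem k (thr M (l + 1)) x
  show |ramp k (thr M l) x - ramp k (thr M (l + 1)) x| ≤ 1
  rw [abs_le]; constructor <;> linarith [h1.1, h1.2, h2.1, h2.2]

lemma approx_tendsto (M : ℕ) (l : Fin (M + 1)) (x : I) :
    Tendsto (fun k => approx M k l x) atTop (𝓝 (ind M l x)) := by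
  have h := (ramp_tendsto (thr M l) x).sub (ramp_tendsto (thr M (l + 1)) x)
  have e : ((if thr M l ≤ x then (1 : ℝ) else 0) - if thr M (l + 1) ≤ x then 1 else 0) =
      ind M l x := by
    unfold ind
    have h1 := cell_eq_iff M l x
    have h2 := thr_mono M l
    by_cases h3 : thr M (l + 1) ≤ x
    · have h4 : thr M l ≤ x := h2.trans h3
      have h5 : ¬ cell M x = l := fun hc => (h1.1 hc).2 h3
      simp [h3, h4, h5]
    · by_cases h4 : thr M l ≤ x
      · have h5 : cell M x = l := h1.2 ⟨h4, h3⟩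
        simp [h3, h4, h5]
      · have h5 : ¬ cell M x = l := fun hc => h4 (h1.1 hc).1
        simp [h3, h4, h5]
  rw [e] at h
  exact h

lemma ind_measurable (M : ℕ) (l : Fin (M + 1)) : Measurable (ind M l) :=
  measurable_of_tendsto_metrizable (fun k => (approx M k l).continuous.measurable)
    (tendsto_pi_nhds.2 fun x => approx_tendsto M l x)

lemma ind_nonneg (M : ℕ) (l : Fin (M + 1)) (x : I) : 0 ≤ ind M l x := by
  unfold ind; split_ifs <;> norm_num

lemma ind_le_one (M : ℕ) (l : Fin (M + 1)) (x : I) : ind M l x ≤ 1 := by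
  unfold ind; split_ifs <;> norm_num

lemma ind_abs (M : ℕ) (l : Fin (M + 1)) (x : I) : |ind M l x| ≤ 1 := by
  rw [abs_of_nonneg (ind_nonneg M l x)]; exact ind_le_one M l x

lemma ind_integrable (M : ℕ) (l : Fin (M + 1)) (μ : Measure I) [IsFiniteMeasure μ] :
    Integrable (ind M l) μ :=
  Integrable.of_bound (C := 1) (ind_measurable M l).aestronglyMeasurable
    (Eventually.of_forall fun x => by rw [Real.norm_eq_abs]; exact ind_abs M l x)

/-- The vector of cell masses. -/
noncomputable def mass (M : ℕ) (μ : Measure I) (l : Fin (M + 1)) : ℝ := ∫ x, ind M l x ∂μ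

lemma mass_simplex (M : ℕ) (μ : Measure I) [IsProbabilityMeasure μ] : InSimplex (mass M μ) where
  nonneg l := integral_nonneg fun x => ind_nonneg M l x
  sum := by
    unfold mass
    rw [← integral_finsetSum _ fun l _ => ind_integrable M l μ]
    have : ∀ x, ∑ l, ind M l x = 1 := by
      intro x
      unfold ind
      simp
    simp [this]

lemma le_mass (M : ℕ) (μ : Measure I) [IsFiniteMeasure μ] (x : I) :
    μ.real {x} ≤ mass M μ (cell M x) := by
  unfold mass
  rw [← integral_indicator_one (measurableSet_singleton x)]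
  apply integral_mono
  · exact (integrable_const (1 : ℝ)).indicator (measurableSet_singleton x)
  · exact ind_integrable M _ μ
  · intro y
    by_cases h : y = x
    · subst h
      simp [ind]
    · have h2 : y ∉ ({x} : Set I) := h
      simp only [Set.indicator_of_notMem h2]
      exact ind_nonneg M _ y

lemma mass_volume_le (M : ℕ) (l : Fin (M + 1)) :
    mass M (volume : Measure I) l ≤ 1 / ((M : ℝ) + 1) := by
  have hM : (0 : ℝ) < (M : ℝ) + 1 := by positivity
  set s : Set I := {x | cell M x = l} with hs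
  have hms : MeasurableSet s := by
    have : s = ind M l ⁻¹' {1} := by
      ext x
      simp only [hs, Set.mem_ofPred_eq, Set.mem_preimage, Set.mem_singleton_iff, ind]
      split_ifs with h <;> simp [h]
    rw [this]
    exact ind_measurable M l (measurableSet_singleton 1)
  have h1 : mass M (volume : Measure I) l = (volume : Measure I).real s := by
    rw [← integral_indicator_one hms]
    unfold mass
    congr 1
    funext x
    by_cases h : cell M x = l
    · have : x ∈ s := h
      simp [ind, h, this]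
    · have : x ∉ s := h
      simp [ind, h, this]
  rw [h1, measureReal_def, unitInterval.volume_apply]
  have h2 : Subtype.val '' s ⊆ Set.Icc (((l : ℕ) : ℝ) / (M + 1)) ((((l : ℕ) : ℝ) + 1) / (M + 1)) := by
    rintro _ ⟨x, hx, rfl⟩
    have h3 := cell_bounds M x
    have h4 : cell M x = l := hx
    rw [h4] at h3
    exact h3
  have h3 := measure_mono (μ := (volume : Measure ℝ)) h2
  rw [Real.volume_Icc] at h3
  have h4 : (((l : ℕ) : ℝ) + 1) / (M + 1) - ((l : ℕ) : ℝ) / (M + 1) = 1 / (M + 1) := by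
    rw [← sub_div]; ring
  rw [h4] at h3
  exact ENNReal.toReal_le_of_le_ofReal (by positivity) h3

/-- Distinct points are in distinct cells of a fine partition. -/
lemma cell_ne {x y : I} (h : x ≠ y) : ∀ᶠ M in atTop, cell M x ≠ cell M y := by
  have h0 : 0 < |(x : ℝ) - y| := abs_pos.2 (sub_ne_zero.2 (fun h2 => h (Subtype.ext h2)))
  obtain ⟨n, hn⟩ := exists_nat_gt (1 / |(x : ℝ) - y|)
  filter_upwards [eventually_ge_atTop n] with M hM heq
  have h1 := cell_bounds M x
  have h2 := cell_bounds M y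
  rw [heq] at h1
  have hM' : (n : ℝ) ≤ M := by exact_mod_cast hM
  have hMp : (0 : ℝ) < (M : ℝ) + 1 := by positivity
  have h4 : (((cell M y : ℕ) : ℝ) + 1) / (M + 1) - ((cell M y : ℕ) : ℝ) / (M + 1) = 1 / (M + 1) := by
    rw [← sub_div]; ring
  have h3 : |(x : ℝ) - y| ≤ 1 / (M + 1) := by
    rw [abs_le]; constructor <;> linarith [h1.1, h1.2, h2.1, h2.2]
  have h5 := (div_lt_iff₀ h0).1 hn
  rw [le_div_iff₀ hMp] at h3
  nlinarith

/-- The test functions for the monomial `r_i ^ m * r_j * r_k`. -/
noncomputable def tf (M m : ℕ) (i j k : Fin (M + 1)) : Fin (m + 2) → I → ℝ :=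
  Fin.cons (ind M j) (Fin.cons (ind M k) (fun _ : Fin m => ind M i))

/-- The continuous approximations of these test functions. -/
noncomputable def tfa (M m : ℕ) (i j k : Fin (M + 1)) (n : ℕ) : Fin (m + 2) → C(I, ℝ) :=
  Fin.cons (approx M n j) (Fin.cons (approx M n k) (fun _ : Fin m => approx M n i))

lemma tfa_abs (M m : ℕ) (i j k : Fin (M + 1)) (n : ℕ) (q : Fin (m + 2)) (x : I) :
    |tfa M m i j k n q x| ≤ 1 := by
  refine Fin.cases ?_ (fun q => Fin.cases ?_ (fun q => ?_) q) q
  · exact approx_abs M n j x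
  · exact approx_abs M n k x
  · exact approx_abs M n i x

lemma tfa_tendsto (M m : ℕ) (i j k : Fin (M + 1)) (q : Fin (m + 2)) (x : I) :
    Tendsto (fun n => tfa M m i j k n q x) atTop (𝓝 (tf M m i j k q x)) := by
  refine Fin.cases ?_ (fun q => Fin.cases ?_ (fun q => ?_) q) q
  · exact approx_tendsto M j x
  · exact approx_tendsto M k x
  · exact approx_tendsto M i x

lemma tf_measurable (M m : ℕ) (i j k : Fin (M + 1)) (q : Fin (m + 2)) :
    Measurable (tf M m i j k q) := by
  refine Fin.cases ?_ (fun q => Fin.cases ?_ (fun q => ?_) q) q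
  · exact ind_measurable M j
  · exact ind_measurable M k
  · exact ind_measurable M i

lemma tf_abs (M m : ℕ) (i j k : Fin (M + 1)) (q : Fin (m + 2)) (x : I) :
    |tf M m i j k q x| ≤ 1 := by
  refine Fin.cases ?_ (fun q => Fin.cases ?_ (fun q => ?_) q) q
  · exact ind_abs M j x
  · exact ind_abs M k x
  · exact ind_abs M i x

lemma Pi_tf (M m : ℕ) (i j k : Fin (M + 1)) (μ : Measure I) :
    Pi (tf M m i j k) μ = mass M μ j * (mass M μ k * mass M μ i ^ m) := by
  unfold Pi tf mass
  rw [Fin.prod_univ_succ, Fin.prod_univ_succ]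
  simp [Fin.cons_zero, Fin.cons_succ, Finset.prod_const]

lemma Phi_tf (M m : ℕ) {i j k : Fin (M + 1)} (hij : i ≠ j) (hik : i ≠ k) (hjk : j ≠ k)
    (μ : Measure I) [IsProbabilityMeasure μ] (u : ℝ) :
    (∫ x, ∏ q, ((1 - u) * (∫ y, tf M m i j k q y ∂μ) + u * tf M m i j k q x) ∂μ)
      - ∏ q, ∫ x, tf M m i j k q x ∂μ =
    mass M μ j * mass M μ k * brk u m (mass M μ i) := by
  have h1 : ∏ q, ∫ x, tf M m i j k q x ∂μ = mass M μ j * (mass M μ k * mass M μ i ^ m) :=
    Pi_tf M m i j k μ
  set a := mass M μ i with ha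
  set b := mass M μ j with hb
  set c := mass M μ k with hc
  have h2 : ∀ x, ∏ q, ((1 - u) * (∫ y, tf M m i j k q y ∂μ) + u * tf M m i j k q x) =
      (1 - u) ^ 2 * b * c * ((1 - u) * a) ^ m
      + (1 - u) ^ 2 * b * c * ((u + (1 - u) * a) ^ m - ((1 - u) * a) ^ m) * ind M i x
      + u * (1 - u) * ((1 - u) * a) ^ m * c * ind M j x
      + u * (1 - u) * ((1 - u) * a) ^ m * b * ind M k x := by
    intro x
    rw [Fin.prod_univ_succ, Fin.prod_univ_succ]
    have e0 : ∫ y, tf M m i j k 0 y ∂μ = b := rfl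
    have e1 : ∫ y, tf M m i j k (Fin.succ 0) y ∂μ = c := rfl
    have e2 : ∀ q : Fin m, ∫ y, tf M m i j k (Fin.succ (Fin.succ q)) y ∂μ = a := fun q => rfl
    have e3 : tf M m i j k 0 x = ind M j x := rfl
    have e4 : tf M m i j k (Fin.succ 0) x = ind M k x := rfl
    have e5 : ∀ q : Fin m, tf M m i j k (Fin.succ (Fin.succ q)) x = ind M i x := fun q => rfl
    simp only [e0, e1, e2, e3, e4, e5, Finset.prod_const, Finset.card_univ, Fintype.card_fin]
    by_cases hx : cell M x = i
    · have h3 : ind M i x = 1 := by simp [ind, hx]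
      have h4 : ind M j x = 0 := by simp [ind, hx, hij]
      have h5 : ind M k x = 0 := by simp [ind, hx, hik]
      rw [h3, h4, h5]
      ring
    · have h3 : ind M i x = 0 := by simp [ind, hx]
      by_cases hy : cell M x = j
      · have h4 : ind M j x = 1 := by simp [ind, hy]
        have h5 : ind M k x = 0 := by simp [ind, hy, hjk]
        rw [h3, h4, h5]
        ring
      · have h4 : ind M j x = 0 := by simp [ind, hy]
        rw [h3, h4]
        ring
  simp_rw [h2]
  rw [h1]
  have hi := ind_integrable M i μ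
  have hj := ind_integrable M j μ
  have hk := ind_integrable M k μ
  rw [integral_add, integral_add, integral_add]
  · simp only [integral_const_mul]
    have e1 : ∫ x, ind M i x ∂μ = a := rfl
    have e2 : ∫ x, ind M j x ∂μ = b := rfl
    have e3 : ∫ x, ind M k x ∂μ = c := rfl
    rw [e1, e2, e3]
    simp only [integral_const, probReal_univ, smul_eq_mul, one_mul]
    unfold brk
    rw [mul_pow]
    ring
  · exact integrable_const _
  · exact hi.const_mul _
  · exact (integrable_const _).add (hi.const_mul _)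
  · exact hj.const_mul _
  · exact ((integrable_const _).add (hi.const_mul _)).add (hj.const_mul _)
  · exact hk.const_mul _

end Pool.Agent.LambdaFV
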