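import Mathlib

/-!
# The jump chain attached to a `Λ`-Fleming-Viot process (deterministic estimates)

For a reproduction event of size `u` the monomial functionals of the cell masses are mapped to
each other by the kernel `K u s p` (from index `s` to index `s + p + 1`), with killing.
-/

open Finset

namespace Pool.Agent.LambdaFV

/-- The kernel with all terms. -/
noncomputable def Kfull (u : ℝ) (s q : ℕ) : ℝ :=
  ((q : ℝ) + s) / (s + 1) * ((q + s).choose s) * u ^ q * (1 - u) ^ (s + 2)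

/-- The kernel: weight of the jump from `s` to `s + p + 1`. -/
noncomputable def K (u : ℝ) (s p : ℕ) : ℝ := Kfull u s (p + 2)

/-- The total rate at which the monomial of index `s` is destroyed. -/
noncomputable def B (u : ℝ) (s : ℕ) : ℝ := 1 - (1 - u) ^ (s + 2) * (1 + (s + 2) * u)

/-- The negative binomial weights. -/
noncomputable def NB (u : ℝ) (s q : ℕ) : ℝ := ((q + (s + 1)).choose (s + 1)) * u ^ q * (1 - u) ^ (s + 2)

/-- The killing term. -/
noncomputable def kap (u : ℝ) (s : ℕ) : ℝ :=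
  (1 - u) / (s + 1) * (1 - (1 - u) ^ (s + 1) * (1 + (s + 1) * u))

lemma Kfull_eq (u : ℝ) (s q : ℕ) :
    Kfull u s q = (1 - u) ^ (s + 2) * (((q + (s + 1)).choose (s + 1)) * u ^ q)
      - (1 - u) ^ (s + 2) / (s + 1) * (((q + s).choose s) * u ^ q) := by
  have h : ((q : ℝ) + s + 1) * ((q + s).choose s) = ((q + (s + 1)).choose (s + 1)) * (s + 1) := by
    have := Nat.add_one_mul_choose_eq (q + s) s
    have h2 : (((q + s + 1) * (q + s).choose s : ℕ) : ℝ) = (((q + s + 1).choose (s + 1) * (s + 1) : ℕ) : ℝ) := by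
      rw [this]
    push_cast at h2
    have e : (q + (s + 1)) = (q + s + 1) := by omega
    rw [e]
    linarith
  have hs : (s : ℝ) + 1 ≠ 0 := by positivity
  unfold Kfull
  field_simp
  linear_combination (u ^ q * (1 - u) ^ (s + 2)) * h

lemma hasSum_Kfull {u : ℝ} (h0 : 0 ≤ u) (h1 : u < 1) (s : ℕ) :
    HasSum (Kfull u s) (1 - (1 - u) / (s + 1)) := by
  have hn : ‖u‖ < 1 := by rw [Real.norm_eq_abs, abs_of_nonneg h0]; exact h1
  have hA := (hasSum_choose_mul_geometric_of_norm_lt_one (s + 1) hn).mul_left ((1 - u) ^ (s + 2))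
  have hB := (hasSum_choose_mul_geometric_of_norm_lt_one s hn).mul_left ((1 - u) ^ (s + 2) / (s + 1))
  have hAB := hA.sub hB
  have hne : (1 - u) ≠ 0 := by linarith
  have hs : (s : ℝ) + 1 ≠ 0 := by positivity
  have e : (1 - u) ^ (s + 2) * (1 / (1 - u) ^ (s + 1 + 1))
      - (1 - u) ^ (s + 2) / (s + 1) * (1 / (1 - u) ^ (s + 1)) = 1 - (1 - u) / (s + 1) := by
    field_simp
    ring
  rw [e] at hAB
  refine hAB.congr_fun ?_ |> fun h => h
  intro q
  exact Kfull_eq u s q

lemma hasSum_K {u : ℝ} (h0 : 0 ≤ u) (h1 : u < 1) (s : ℕ) :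
    HasSum (K u s) (B u s - kap u s) := by
  have h := (hasSum_nat_add_iff' (f := Kfull u s) 2).2 (hasSum_Kfull h0 h1 s)
  have hs : (s : ℝ) + 1 ≠ 0 := by positivity
  have e : 1 - (1 - u) / (s + 1) - ∑ i ∈ range 2, Kfull u s i = B u s - kap u s := by
    simp only [Finset.sum_range_succ, Finset.range_zero, Finset.sum_empty, Kfull, B, kap]
    have e1 : (1 + s).choose s = s + 1 := by
      rw [Nat.add_comm]; exact Nat.choose_succ_self_right s
    simp only [Nat.zero_add, Nat.choose_self, e1]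
    push_cast
    field_simp
    ring
  rw [e] at h
  exact h

lemma K_nonneg {u : ℝ} (h0 : 0 ≤ u) (h1 : u ≤ 1) (s p : ℕ) : 0 ≤ K u s p := by
  unfold K Kfull
  have : 0 ≤ 1 - u := by linarith
  positivity

lemma K_le_NB {u : ℝ} (h0 : 0 ≤ u) (h1 : u ≤ 1) (s p : ℕ) : K u s p ≤ NB u s (p + 2) := by
  unfold K NB
  rw [Kfull_eq]
  have h2 : 0 ≤ 1 - u := by linarith
  have h3 : 0 ≤ (1 - u) ^ (s + 2) / (s + 1) * (((p + 2 + s).choose s) * u ^ (p + 2)) := by positivity
  nlinarith [h3]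

lemma moment1_aux (s p : ℕ) :
    ((p : ℝ) + 2) * ((p + 2 + (s + 1)).choose (s + 1)) =
      (s + 2) * ((p + 1 + (s + 2)).choose (s + 2)) := by
  have h := Nat.choose_succ_right_eq (p + 2 + (s + 1)) (s + 1)
  have e1 : p + 2 + (s + 1) - (s + 1) = p + 2 := by omega
  have e2 : p + 1 + (s + 2) = p + 2 + (s + 1) := by omega
  rw [e1] at h
  rw [e2]
  have h2 : (((p + 2 + (s + 1)).choose (s + 1 + 1) * (s + 1 + 1) : ℕ) : ℝ)
    = (((p + 2 + (s + 1)).choose (s + 1) * (p + 2) : ℕ) : ℝ) := by rw [h]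
  push_cast at h2
  have e3 : s + 2 = s + 1 + 1 := by omega
  rw [e3]
  linarith

lemma moment2_aux (s p : ℕ) :
    ((p : ℝ) + 1) * (p + 2) * ((p + 2 + (s + 1)).choose (s + 1)) =
      (s + 2) * (s + 3) * ((p + (s + 3)).choose (s + 3)) := by
  have h1 := moment1_aux s p
  have h := Nat.choose_succ_right_eq (p + 1 + (s + 2)) (s + 2)
  have e1 : p + 1 + (s + 2) - (s + 2) = p + 1 := by omega
  have e2 : p + (s + 3) = p + 1 + (s + 2) := by omega
  rw [e1] at h
  rw [e2]
  have h2 : (((p + 1 + (s + 2)).choose (s + 2 + 1) * (s + 2 + 1) : ℕ) : ℝ)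
    = (((p + 1 + (s + 2)).choose (s + 2) * (p + 1) : ℕ) : ℝ) := by rw [h]
  push_cast at h2
  have e3 : s + 3 = s + 2 + 1 := by omega
  rw [e3]
  linear_combination (p + 1 : ℝ) * h1 - ((s : ℝ) + 2) * h2

lemma moment1 {u : ℝ} (h0 : 0 ≤ u) (h1 : u < 1) (s : ℕ) :
    Summable (fun p => K u s p * (p + 1)) ∧ ∑' p, K u s p * (p + 1) ≤ (s + 2) * u / (1 - u) := by
  have hn : ‖u‖ < 1 := by rw [Real.norm_eq_abs, abs_of_nonneg h0]; exact h1
  have h2 : 0 < 1 - u := by linarith
  have hA := hasSum_choose_mul_geometric_of_norm_lt_one (s + 2) hn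
  have hA1 := (hasSum_nat_add_iff' (f := fun n ↦ ((n + (s + 2)).choose (s + 2) : ℝ) * u ^ n) 1).2 hA
  have hA2 := hA1.mul_left ((s + 2) * u * (1 - u) ^ (s + 2))
  have hle : ∀ p, K u s p * (p + 1) ≤ (s + 2) * u * (1 - u) ^ (s + 2) *
      (((p + 1 + (s + 2)).choose (s + 2)) * u ^ (p + 1)) := by
    intro p
    have hk := K_le_NB h0 h1.le s p
    have hk0 := K_nonneg h0 h1.le s p
    calc K u s p * (p + 1) ≤ NB u s (p + 2) * (p + 2) := by
          apply mul_le_mul hk _ (by positivity) (hk0.trans hk)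
          linarith
      _ = (((p : ℝ) + 2) * ((p + 2 + (s + 1)).choose (s + 1))) * (u ^ (p + 2) * (1 - u) ^ (s + 2)) := by
          unfold NB; ring
      _ = _ := by rw [moment1_aux]; ring
  have hnn : ∀ p, 0 ≤ K u s p * (p + 1) := fun p =>
    mul_nonneg (K_nonneg h0 h1.le s p) (by positivity)
  have hs : Summable (fun p => K u s p * (p + 1)) := Summable.of_nonneg_of_le hnn hle hA2.summable
  refine ⟨hs, ?_⟩
  calc ∑' p, K u s p * (p + 1) ≤ _ := hs.tsum_le_tsum hle hA2.summable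
    _ = _ := hA2.tsum_eq
    _ ≤ (s + 2) * u * (1 - u) ^ (s + 2) * (1 / (1 - u) ^ (s + 2 + 1)) := by
        apply mul_le_mul_of_nonneg_left _ (by positivity)
        have : 0 ≤ ∑ i ∈ range 1, ((i + (s + 2)).choose (s + 2) : ℝ) * u ^ i := by positivity
        linarith
    _ = (s + 2) * u / (1 - u) := by
        field_simp
        ring

lemma moment2 {u : ℝ} (h0 : 0 ≤ u) (h1 : u < 1) (s : ℕ) :
    ∑' p, K u s p * (p + 1) ≤ (s + 2) * (s + 3) / 2 * (u / (1 - u)) ^ 2 := by
  have hn : ‖u‖ < 1 := by rw [Real.norm_eq_abs, abs_of_nonneg h0]; exact h1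
  have h2 : 0 < 1 - u := by linarith
  have hA := hasSum_choose_mul_geometric_of_norm_lt_one (s + 3) hn
  have hA2 := hA.mul_left ((s + 2) * (s + 3) / 2 * u ^ 2 * (1 - u) ^ (s + 2))
  have hle : ∀ p, K u s p * (p + 1) ≤ (s + 2) * (s + 3) / 2 * u ^ 2 * (1 - u) ^ (s + 2) *
      (((p + (s + 3)).choose (s + 3)) * u ^ p) := by
    intro p
    have hk := K_le_NB h0 h1.le s p
    have hk0 := K_nonneg h0 h1.le s p
    calc K u s p * (p + 1) ≤ NB u s (p + 2) * ((p + 1) * (p + 2) / 2) := by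
          apply mul_le_mul hk _ (by positivity) (hk0.trans hk)
          have : (0 : ℝ) ≤ p := by positivity
          nlinarith
      _ = ((((p : ℝ) + 1) * (p + 2)) * ((p + 2 + (s + 1)).choose (s + 1))) *
            (u ^ (p + 2) * (1 - u) ^ (s + 2) / 2) := by
          unfold NB; ring
      _ = _ := by rw [moment2_aux]; ring
  have hs := (moment1 h0 h1 s).1
  calc ∑' p, K u s p * (p + 1) ≤ _ := hs.tsum_le_tsum hle hA2.summable
    _ = _ := hA2.tsum_eq
    _ = _ := by
        field_simp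
        ring

/-- The level of the index `s`. -/
noncomputable def ell (s : ℕ) : ℕ := Nat.log 4 (Nat.log 2 (s + 1) + 1)

/-- First test function. -/
noncomputable def G (s : ℕ) : ℝ := (1 / 2) ^ (ell s + 1)

/-- Second test function. -/
noncomputable def V (s : ℕ) : ℝ := Real.log (1 + Real.log (s + 1))

lemma ell_mono {s t : ℕ} (h : s ≤ t) : ell s ≤ ell t := by
  unfold ell
  exact Nat.log_mono_right (Nat.add_le_add_right (Nat.log_mono_right (by omega)) 1)

lemma G_anti {s t : ℕ} (h : s ≤ t) : G t ≤ G s := by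
  unfold G
  exact pow_le_pow_of_le_one (by norm_num) (by norm_num) (by have := ell_mono h; omega)

lemma G_nonneg (s : ℕ) : 0 ≤ G s := by unfold G; positivity

lemma G_le_half (s : ℕ) : G s ≤ 1 / 2 := by
  unfold G
  calc ((1 : ℝ) / 2) ^ (ell s + 1) ≤ (1 / 2) ^ 1 :=
        pow_le_pow_of_le_one (by norm_num) (by norm_num) (by omega)
    _ = _ := by norm_num

lemma log_succ_nonneg (s : ℕ) : 0 ≤ Real.log ((s : ℝ) + 1) := by
  apply Real.log_nonneg
  have : (0 : ℝ) ≤ s := by positivity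
  linarith

lemma V_nonneg (s : ℕ) : 0 ≤ V s := by
  unfold V
  apply Real.log_nonneg
  have := log_succ_nonneg s
  linarith

lemma V_mono {s t : ℕ} (h : s ≤ t) : V s ≤ V t := by
  unfold V
  have h1 := log_succ_nonneg s
  have h2 : Real.log ((s : ℝ) + 1) ≤ Real.log ((t : ℝ) + 1) := by
    apply Real.log_le_log (by positivity)
    have : (s : ℝ) ≤ t := by exact_mod_cast h
    linarith
  exact Real.log_le_log (by linarith) (by linarith)

lemma V_zero : V 0 = 0 := by simp [V]

lemma tendsto_V : Filter.Tendsto V Filter.atTop Filter.atTop := by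
  unfold V
  apply Real.tendsto_log_atTop.comp
  apply Filter.tendsto_atTop_add_const_left
  apply Real.tendsto_log_atTop.comp
  apply Filter.tendsto_atTop_add_const_right
  exact tendsto_natCast_atTop_atTop

lemma log_shift (s p : ℕ) : Real.log (((s + p + 1 : ℕ) : ℝ) + 1) =
    Real.log ((s : ℝ) + 1) + Real.log (1 + ((p : ℝ) + 1) / (s + 1)) := by
  rw [← Real.log_mul (by positivity) (by positivity)]
  congr 1
  push_cast
  field_simp
  ring

lemma V_incr (s p : ℕ) : V (s + p + 1) - V s ≤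
    Real.log (1 + Real.log (1 + ((p : ℝ) + 1) / (s + 1)) / (1 + Real.log (s + 1))) := by
  have h1 := log_succ_nonneg s
  have h2 : 0 ≤ Real.log (1 + ((p : ℝ) + 1) / (s + 1)) := by
    apply Real.log_nonneg
    have : (0 : ℝ) ≤ ((p : ℝ) + 1) / (s + 1) := by positivity
    linarith
  unfold V
  rw [← Real.log_div (by rw [log_shift]; positivity) (by positivity)]
  apply le_of_eq
  congr 1
  rw [log_shift]
  field_simp
  ring

lemma V_incr1 (s p : ℕ) : V (s + p + 1) - V s ≤
    (p + 1) / ((s + 1) * (1 + Real.log (s + 1))) := by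
  have h1 := log_succ_nonneg s
  have h2 : 0 ≤ Real.log (1 + ((p : ℝ) + 1) / (s + 1)) := by
    apply Real.log_nonneg
    have : (0 : ℝ) ≤ ((p : ℝ) + 1) / (s + 1) := by positivity
    linarith
  have h3 : Real.log (1 + ((p : ℝ) + 1) / (s + 1)) ≤ ((p : ℝ) + 1) / (s + 1) := by
    have := Real.log_le_sub_one_of_pos (x := 1 + ((p : ℝ) + 1) / (s + 1)) (by positivity)
    linarith
  have h4 : Real.log (1 + Real.log (1 + ((p : ℝ) + 1) / (s + 1)) / (1 + Real.log (s + 1)))
      ≤ Real.log (1 + ((p : ℝ) + 1) / (s + 1)) / (1 + Real.log (s + 1)) := by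
    have := Real.log_le_sub_one_of_pos
      (x := 1 + Real.log (1 + ((p : ℝ) + 1) / (s + 1)) / (1 + Real.log (s + 1))) (by positivity)
    linarith
  refine (V_incr s p).trans (h4.trans ?_)
  rw [← div_div]
  exact div_le_div_of_nonneg_right h3 (by positivity)

lemma V_incr2 (s p k : ℕ) : V (s + p + 1) - V s ≤
    Real.log (k + 2) + (p + 1) * (1 / 2) ^ k / (s + 1) := by
  have h1 := log_succ_nonneg s
  have hz : (0 : ℝ) ≤ ((p : ℝ) + 1) / (s + 1) := by positivity
  have h2 : 0 ≤ Real.log (1 + ((p : ℝ) + 1) / (s + 1)) := Real.log_nonneg (by linarith)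
  have h3 : Real.log (1 + ((p : ℝ) + 1) / (s + 1)) ≤ k + ((p : ℝ) + 1) / (s + 1) * (1 / 2) ^ k := by
    have h5 : Real.log (1 + ((p : ℝ) + 1) / (s + 1)) = k * Real.log 2 +
        Real.log ((1 + ((p : ℝ) + 1) / (s + 1)) * (1 / 2) ^ k) := by
      rw [Real.log_mul (by positivity) (by positivity), Real.log_pow, one_div, Real.log_inv]
      ring
    have h6 := Real.log_le_sub_one_of_pos (x := (1 + ((p : ℝ) + 1) / (s + 1)) * (1 / 2) ^ k)
      (by positivity)
    have h7 : Real.log 2 ≤ 1 := by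
      have := Real.log_two_lt_d9
      linarith
    have h8 : (k : ℝ) * Real.log 2 ≤ k * 1 := mul_le_mul_of_nonneg_left h7 (by positivity)
    have h9 : ((1 : ℝ) / 2) ^ k ≤ 1 := pow_le_one₀ (by norm_num) (by norm_num)
    rw [h5]
    nlinarith
  set y := ((p : ℝ) + 1) / (s + 1) * (1 / 2) ^ k with hy
  have hy0 : 0 ≤ y := by positivity
  have h4 : Real.log (1 + ((p : ℝ) + 1) / (s + 1)) / (1 + Real.log (s + 1)) ≤ k + y := by
    calc _ ≤ Real.log (1 + ((p : ℝ) + 1) / (s + 1)) / 1 :=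
          div_le_div_of_nonneg_left h2 (by norm_num) (by linarith)
      _ ≤ _ := by rw [div_one]; exact h3
  have h5 : Real.log (1 + Real.log (1 + ((p : ℝ) + 1) / (s + 1)) / (1 + Real.log (s + 1)))
      ≤ Real.log (k + 2) + y := by
    have hpos : 0 < 1 + Real.log (1 + ((p : ℝ) + 1) / (s + 1)) / (1 + Real.log (s + 1)) := by
      positivity
    calc _ ≤ Real.log (1 + (k + y)) := Real.log_le_log hpos (by linarith)
      _ = Real.log (k + 2) + Real.log ((1 + (k + y)) / (k + 2)) := by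
          rw [Real.log_div (by positivity) (by positivity)]; ring
      _ ≤ Real.log (k + 2) + ((1 + (k + y)) / (k + 2) - 1) := by
          have := Real.log_le_sub_one_of_pos (x := (1 + (k + y)) / (k + 2)) (by positivity)
          linarith
      _ ≤ Real.log (k + 2) + y := by
          have hk : (0 : ℝ) ≤ k := by positivity
          have : (1 + (k + y)) / (k + 2) - 1 ≤ y := by
            rw [sub_le_iff_le_add, div_le_iff₀ (by positivity)]
            nlinarith
          linarith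
  refine (V_incr s p).trans (h5.trans (le_of_eq ?_))
  rw [hy]; ring

lemma kap_nonneg {u : ℝ} (h0 : 0 ≤ u) (h1 : u < 1) (s : ℕ) : 0 ≤ kap u s := by
  have h2 : 0 < 1 - u := by linarith
  unfold kap
  apply mul_nonneg (by positivity)
  have h := one_add_mul_le_pow (a := u / (1 - u)) (by
    have : 0 ≤ u / (1 - u) := by positivity
    linarith) (s + 1)
  have h3 : (1 - u) ^ (s + 1) * (1 + (s + 1) * u) ≤ 1 := by
    have e : (1 + u / (1 - u)) = 1 / (1 - u) := by field_simp; ring
    rw [e, one_div, inv_pow] at h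
    have h5 : 1 + ((s : ℝ) + 1) * u ≤ ((1 - u) ^ (s + 1))⁻¹ := by
      refine le_trans ?_ h
      push_cast
      have : u ≤ u / (1 - u) := by
        rw [le_div_iff₀ h2]; nlinarith
      have hs : (0 : ℝ) ≤ s := by positivity
      nlinarith
    calc _ ≤ (1 - u) ^ (s + 1) * ((1 - u) ^ (s + 1))⁻¹ :=
          mul_le_mul_of_nonneg_left h5 (by positivity)
      _ = 1 := mul_inv_cancel₀ (by positivity)
  linarith

lemma kap_le1 {u : ℝ} (h0 : 0 ≤ u) (h1 : u < 1) (s : ℕ) : kap u s ≤ (1 - u) / (s + 1) := by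
  have h2 : 0 < 1 - u := by linarith
  unfold kap
  have h3 : 0 ≤ (1 - u) ^ (s + 1) * (1 + (s + 1) * u) := by positivity
  calc _ ≤ (1 - u) / (s + 1) * 1 := by
        apply mul_le_mul_of_nonneg_left _ (by positivity)
        linarith
    _ = _ := mul_one _

lemma kap_le2 {u : ℝ} (h0 : 0 ≤ u) (h1 : u < 1) (s : ℕ) : kap u s ≤ (s + 1) * u ^ 2 := by
  have h2 : 0 < 1 - u := by linarith
  unfold kap
  have h := one_add_mul_le_pow (a := -u) (by linarith) (s + 1)
  push_cast at h
  have h3 : (1 - ((s : ℝ) + 1) * u) * (1 + (s + 1) * u) ≤ (1 - u) ^ (s + 1) * (1 + (s + 1) * u) := by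
    apply mul_le_mul_of_nonneg_right _ (by positivity)
    have e : 1 + -u = 1 - u := by ring
    rw [e] at h
    linarith
  have h4 : 1 - (1 - u) ^ (s + 1) * (1 + (s + 1) * u) ≤ ((s + 1) * u) ^ 2 := by nlinarith
  calc _ ≤ (1 - u) / (s + 1) * ((s + 1) * u) ^ 2 :=
        mul_le_mul_of_nonneg_left h4 (by positivity)
    _ = (1 - u) * ((s + 1) * u ^ 2) := by field_simp
    _ ≤ 1 * ((s + 1) * u ^ 2) := by
        apply mul_le_mul_of_nonneg_right _ (by positivity)
        linarith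
    _ = _ := one_mul _

/-- The generator of the chain for a single event size `u`. -/
noncomputable def Lop (u : ℝ) (b : ℕ → ℝ) (s : ℕ) : ℝ := ∑' p, K u s p * b (s + p + 1) - B u s * b s

/-- The test function. -/
noncomputable def af (η : ℝ) (s : ℕ) : ℝ := max 0 (1 - G s - η * V s)

lemma af_nonneg (η : ℝ) (s : ℕ) : 0 ≤ af η s := le_max_left _ _

lemma af_le_one {η : ℝ} (hη : 0 ≤ η) (s : ℕ) : af η s ≤ 1 := by
  unfold af
  apply max_le (by norm_num)
  have := G_nonneg s
  have := mul_nonneg hη (V_nonneg s)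
  linarith

lemma af_zero (η : ℝ) : 1 / 2 ≤ af η 0 := by
  unfold af
  refine le_trans ?_ (le_max_right _ _)
  rw [V_zero]
  have := G_le_half 0
  linarith

lemma af_support {η : ℝ} (hη : 0 < η) : ∃ T, ∀ s ≥ T, af η s = 0 := by
  obtain ⟨T, hT⟩ := (Filter.tendsto_atTop.1 tendsto_V (1 / η)).exists_forall_of_atTop
  refine ⟨T, fun s hs => ?_⟩
  unfold af
  apply max_eq_left
  have h1 := hT s hs
  have h2 := G_nonneg s
  have h3 : η * (1 / η) ≤ η * V s := mul_le_mul_of_nonneg_left h1 hη.le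
  rw [mul_one_div_cancel hη.ne'] at h3
  linarith

lemma summable_K_mul {u : ℝ} (h0 : 0 ≤ u) (h1 : u < 1) (s : ℕ) {b : ℕ → ℝ} {C : ℝ}
    (hb : ∀ p, |b p| ≤ C) : Summable (fun p => K u s p * b p) := by
  refine Summable.of_norm_bounded (g := fun p => K u s p * C) ((hasSum_K h0 h1 s).summable.mul_right C) ?_
  intro p
  rw [Real.norm_eq_abs, abs_mul, abs_of_nonneg (K_nonneg h0 h1.le s p)]
  exact mul_le_mul_of_nonneg_left (hb p) (K_nonneg h0 h1.le s p)

lemma summable_K_V {u : ℝ} (h0 : 0 ≤ u) (h1 : u < 1) (s : ℕ) :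
    Summable (fun p => K u s p * (V (s + p + 1) - V s)) := by
  refine Summable.of_nonneg_of_le (fun p => mul_nonneg (K_nonneg h0 h1.le s p)
    (sub_nonneg.2 (V_mono (by omega)))) ?_ (moment1 h0 h1 s).1
  intro p
  apply mul_le_mul_of_nonneg_left _ (K_nonneg h0 h1.le s p)
  refine (V_incr1 s p).trans ?_
  have h1 := log_succ_nonneg s
  apply div_le_self (by positivity)
  have hs : (0 : ℝ) ≤ s := by positivity
  nlinarith

lemma abs_G_sub (s t : ℕ) : |G s - G t| ≤ 1 := by
  have h1 := G_nonneg s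
  have h2 := G_le_half s
  have h3 := G_nonneg t
  have h4 := G_le_half t
  rw [abs_le]; constructor <;> linarith

lemma Lop_lower {u : ℝ} (h0 : 0 ≤ u) (h1 : u < 1) {η : ℝ} (hη : 0 ≤ η) (s : ℕ)
    (hs : 0 < af η s) :
    -kap u s + ∑' p, K u s p * (G s - G (s + p + 1)) - η * ∑' p, K u s p * (V (s + p + 1) - V s)
      ≤ Lop u (af η) s := by
  have has : af η s = 1 - G s - η * V s := by
    unfold af at hs ⊢
    rcases le_total 0 (1 - G s - η * V s) with h | h
    · exact max_eq_right h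
    · rw [max_eq_left h] at hs; exact absurd hs (lt_irrefl _)
  have hK := hasSum_K h0 h1 s
  have hG : Summable (fun p => K u s p * (G s - G (s + p + 1))) :=
    summable_K_mul h0 h1 s (fun p => abs_G_sub _ _)
  have hV := summable_K_V h0 h1 s
  have hA : Summable (fun p => K u s p * af η (s + p + 1)) :=
    summable_K_mul h0 h1 s (C := 1) (fun p => by
      rw [abs_of_nonneg (af_nonneg _ _)]; exact af_le_one hη _)
  have hsum : HasSum (fun p => K u s p * af η s + K u s p * (G s - G (s + p + 1))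
      - η * (K u s p * (V (s + p + 1) - V s)))
      ((B u s - kap u s) * af η s + ∑' p, K u s p * (G s - G (s + p + 1))
        - η * ∑' p, K u s p * (V (s + p + 1) - V s)) :=
    ((hK.mul_right _).add hG.hasSum).sub (hV.hasSum.mul_left η)
  have hle : (B u s - kap u s) * af η s + ∑' p, K u s p * (G s - G (s + p + 1))
        - η * ∑' p, K u s p * (V (s + p + 1) - V s) ≤ ∑' p, K u s p * af η (s + p + 1) := by
    rw [← hsum.tsum_eq]
    apply hsum.summable.tsum_le_tsum _ hA
    intro p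
    have h5 : 1 - G (s + p + 1) - η * V (s + p + 1) ≤ af η (s + p + 1) := le_max_right _ _
    have h6 := mul_le_mul_of_nonneg_left h5 (K_nonneg h0 h1.le s p)
    rw [has]
    nlinarith [h6]
  unfold Lop
  have h7 : kap u s * af η s ≤ kap u s := by
    have := mul_le_mul_of_nonneg_left (af_le_one hη s) (kap_nonneg h0 h1 s)
    linarith
  nlinarith [hle, h7]

lemma tsum_G_nonneg {u : ℝ} (h0 : 0 ≤ u) (h1 : u < 1) (s : ℕ) :
    0 ≤ ∑' p, K u s p * (G s - G (s + p + 1)) :=
  tsum_nonneg fun p => mul_nonneg (K_nonneg h0 h1.le s p) (sub_nonneg.2 (G_anti (by omega)))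

lemma tsum_V_le1 {u : ℝ} (h0 : 0 ≤ u) (h1 : u < 1) (s : ℕ) :
    ∑' p, K u s p * (V (s + p + 1) - V s) ≤
      1 / ((s + 1) * (1 + Real.log (s + 1))) * ∑' p, K u s p * (p + 1) := by
  rw [← tsum_mul_left]
  apply (summable_K_V h0 h1 s).tsum_le_tsum _ ((moment1 h0 h1 s).1.mul_left _)
  intro p
  calc _ ≤ K u s p * ((p + 1) / ((s + 1) * (1 + Real.log (s + 1)))) :=
        mul_le_mul_of_nonneg_left (V_incr1 s p) (K_nonneg h0 h1.le s p)
    _ = _ := by ring

lemma tsum_V_small1 {u : ℝ} (h0 : 0 ≤ u) (h1 : u ≤ 1 / 2) (s : ℕ) :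
    ∑' p, K u s p * (V (s + p + 1) - V s) ≤ 4 * u / (1 + Real.log (s + 1)) := by
  have hL := log_succ_nonneg s
  have hs : (0 : ℝ) ≤ s := by positivity
  have h2 : 0 < 1 - u := by linarith
  calc _ ≤ 1 / ((s + 1) * (1 + Real.log (s + 1))) * ((s + 2) * u / (1 - u)) :=
        (tsum_V_le1 h0 (by linarith) s).trans
          (mul_le_mul_of_nonneg_left (moment1 h0 (by linarith) s).2 (by positivity))
    _ ≤ 1 / ((s + 1) * (1 + Real.log (s + 1))) * ((s + 1) * (4 * u)) := by
        apply mul_le_mul_of_nonneg_left _ (by positivity)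
        rw [div_le_iff₀ h2]
        have h3 : (s + 2) * u ≤ 2 * ((s + 1) * u) := by nlinarith
        have h4 : 0 ≤ (s + 1) * u := by positivity
        nlinarith
    _ = _ := by field_simp

lemma tsum_V_small2 {u : ℝ} (h0 : 0 ≤ u) (h1 : u ≤ 1 / 2) (s : ℕ) :
    ∑' p, K u s p * (V (s + p + 1) - V s) ≤ 12 * (s + 1) * u ^ 2 := by
  have hL := log_succ_nonneg s
  have hs : (0 : ℝ) ≤ s := by positivity
  have h2 : 0 < 1 - u := by linarith
  have hu : u / (1 - u) ≤ 2 * u := by
    rw [div_le_iff₀ h2]; nlinarith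
  have hu0 : 0 ≤ u / (1 - u) := by positivity
  calc _ ≤ 1 / ((s + 1) * (1 + Real.log (s + 1))) * ((s + 2) * (s + 3) / 2 * (u / (1 - u)) ^ 2) :=
        (tsum_V_le1 h0 (by linarith) s).trans
          (mul_le_mul_of_nonneg_left (moment2 h0 (by linarith) s) (by positivity))
    _ ≤ 1 / ((s + 1) * 1) * ((s + 2) * (s + 3) / 2 * (2 * u) ^ 2) := by
        apply mul_le_mul
        · apply one_div_le_one_div_of_le (by positivity)
          apply mul_le_mul_of_nonneg_left (by linarith) (by positivity)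
        · apply mul_le_mul_of_nonneg_left (pow_le_pow_left₀ hu0 hu 2) (by positivity)
        · positivity
        · positivity
    _ ≤ 12 * (s + 1) * u ^ 2 := by
        rw [mul_one, one_div, inv_mul_le_iff₀ (by positivity)]
        have : (s + 2) * (s + 3) / 2 ≤ 3 * ((s : ℝ) + 1) ^ 2 := by nlinarith
        have h5 := mul_le_mul_of_nonneg_right this (by positivity : 0 ≤ (2 * u) ^ 2)
        nlinarith [h5]

lemma tsum_V_big (k : ℕ) (s : ℕ) :
    ∑' p, K (1 - (1 / 2) ^ k) s p * (V (s + p + 1) - V s) ≤ Real.log (k + 2) + 2 := by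
  set u : ℝ := 1 - (1 / 2) ^ k with hu
  have hp : (0 : ℝ) < (1 / 2) ^ k := by positivity
  have hp1 : ((1 : ℝ) / 2) ^ k ≤ 1 := pow_le_one₀ (by norm_num) (by norm_num)
  have h0 : 0 ≤ u := by linarith
  have h1 : u < 1 := by linarith
  have hs : (0 : ℝ) ≤ s := by positivity
  have hl : 0 ≤ Real.log ((k : ℝ) + 2) := Real.log_nonneg (by
    have : (0 : ℝ) ≤ k := by positivity
    linarith)
  have hK := hasSum_K h0 h1 s
  have hm := moment1 h0 h1 s
  have hsum := (hK.mul_right (Real.log ((k : ℝ) + 2))).add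
    (hm.1.hasSum.mul_right ((1 / 2 : ℝ) ^ k / ((s : ℝ) + 1)))
  calc ∑' p, K u s p * (V (s + p + 1) - V s) ≤
      ∑' p, (K u s p * Real.log (k + 2) + K u s p * (p + 1) * ((1 / 2) ^ k / (s + 1))) := by
        apply (summable_K_V h0 h1 s).tsum_le_tsum _ hsum.summable
        intro p
        calc _ ≤ K u s p * (Real.log (k + 2) + (p + 1) * (1 / 2) ^ k / (s + 1)) :=
              mul_le_mul_of_nonneg_left (V_incr2 s p k) (K_nonneg h0 h1.le s p)
          _ = _ := by ring
    _ = (B u s - kap u s) * Real.log (k + 2) +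
        (∑' p, K u s p * (p + 1)) * ((1 / 2) ^ k / (s + 1)) := hsum.tsum_eq
    _ ≤ 1 * Real.log (k + 2) + ((s + 2) * u / (1 - u)) * ((1 / 2) ^ k / (s + 1)) := by
        apply add_le_add
        · apply mul_le_mul_of_nonneg_right _ hl
          have := kap_nonneg h0 h1 s
          have hB : B u s ≤ 1 := by
            unfold B
            have : 0 ≤ (1 - u) ^ (s + 2) * (1 + (s + 2) * u) := by
              have : 0 ≤ 1 - u := by linarith
              positivity
            linarith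
          linarith
        · exact mul_le_mul_of_nonneg_right hm.2 (by positivity)
    _ ≤ Real.log (k + 2) + 2 := by
        have e : 1 - u = (1 / 2) ^ k := by rw [hu]; ring
        rw [e, one_mul]
        have : (s + 2) * u / (1 / 2) ^ k * ((1 / 2) ^ k / (s + 1)) = (s + 2) * u / (s + 1) := by
          field_simp
        rw [this]
        have : (s + 2) * u / (s + 1) ≤ 2 := by
          rw [div_le_iff₀ (by positivity)]
          nlinarith
        linarith

lemma ell_spec (s : ℕ) : 4 ^ ell s ≤ Nat.log 2 (s + 1) + 1 ∧ Nat.log 2 (s + 1) + 1 < 4 ^ (ell s + 1) :=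
  ⟨Nat.pow_log_le_self 4 (by omega), Nat.lt_pow_succ_log_self (by norm_num) _⟩

lemma lt_two_pow (s : ℕ) : s + 1 < 2 ^ 4 ^ (ell s + 1) := by
  calc s + 1 < 2 ^ (Nat.log 2 (s + 1) + 1) := Nat.lt_pow_succ_log_self (by norm_num) _
    _ ≤ 2 ^ 4 ^ (ell s + 1) := Nat.pow_le_pow_right (by norm_num) (ell_spec s).2.le

lemma G_far (s t : ℕ) (h : 2 ^ 4 ^ (ell s + 1) ≤ t + 1) : G t ≤ (1 / 2) ^ (ell s + 2) := by
  have h1 : 4 ^ (ell s + 1) ≤ Nat.log 2 (t + 1) := Nat.le_log_of_pow_le (by norm_num) h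
  have h2 : ell s + 1 ≤ ell t := by
    unfold ell
    exact Nat.le_log_of_pow_le (by norm_num) (h1.trans (Nat.le_succ _))
  unfold G
  exact pow_le_pow_of_le_one (by norm_num) (by norm_num) (by omega)

lemma tsum_G_big_aux (s R : ℕ) (hR16 : 16 ≤ R) (hsR : s + 1 < R) (ε : ℝ) (heR : ε * R ^ 4 = 1)
    (hfar : ∀ t, R ≤ t + 1 → G t ≤ (1 / 2) ^ (ell s + 2)) :
    (1 / 2) ^ (ell s + 3) ≤ ∑' p, K (1 - ε) s p * (G s - G (s + p + 1)) := by
  have hR16' : (16 : ℝ) ≤ R := by exact_mod_cast hR16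
  have hRpos : (0 : ℝ) < R := by linarith
  have hsR' : (s : ℝ) + 1 ≤ R := by exact_mod_cast hsR.le
  have hεR : ε = 1 / R ^ 4 := by
    rw [eq_div_iff (by positivity)]; exact heR
  have hεpos : 0 < ε := by rw [hεR]; positivity
  obtain ⟨u, hu⟩ : ∃ u : ℝ, u = 1 - ε := ⟨_, rfl⟩
  rw [← hu]
  have hue : 1 - u = ε := by rw [hu]; ring
  have hε8 : ε ≤ 1 / 65536 := by
    rw [hεR]
    apply one_div_le_one_div_of_le (by norm_num)
    calc (65536 : ℝ) = 16 ^ 4 := by norm_num
      _ ≤ R ^ 4 := pow_le_pow_left₀ (by norm_num) hR16' 4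
  have h0 : 0 ≤ u := by linarith
  have h1 : u < 1 := by linarith
  have hK := hasSum_K h0 h1 s
  have hs0 : (0 : ℝ) ≤ s := by positivity
  -- total mass
  have htot : 3 / 4 ≤ B u s - kap u s := by
    have h3 : kap u s ≤ ε := by
      refine (kap_le1 h0 h1 s).trans ?_
      rw [hue]
      exact div_le_self hεpos.le (by linarith)
    have h4 : ε ^ (s + 2) ≤ ε ^ 2 := pow_le_pow_of_le_one hεpos.le (by linarith) (by omega)
    have h5 : (1 + (s + 2) * u) ≤ 2 * R := by nlinarith
    have h6 : ε ^ (s + 2) * (1 + (s + 2) * u) ≤ ε ^ 2 * (2 * R) :=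
      mul_le_mul h4 h5 (by positivity) (by positivity)
    have h7 : ε ^ 2 * (2 * R) ≤ 1 / 8 := by
      have : ε * R ≤ 1 := by
        rw [hεR, div_mul_eq_mul_div, one_mul, div_le_one (by positivity)]
        calc (R : ℝ) = R ^ 1 := (pow_one _).symm
          _ ≤ R ^ 4 := pow_le_pow_right₀ (by linarith) (by norm_num)
      nlinarith
    have : B u s = 1 - ε ^ (s + 2) * (1 + (s + 2) * u) := by
      unfold B; rw [hue]
    linarith
  -- the bad part
  have hbad : ∑ p ∈ range R, K u s p ≤ 1 / 4 := by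
    have h3 : ∀ p ∈ range R, K u s p ≤ (2 * R) ^ (s + 1) * ε ^ (s + 2) := by
      intro p hp
      rw [Finset.mem_range] at hp
      refine (K_le_NB h0 h1.le s p).trans ?_
      unfold NB
      rw [hue]
      have h4 : ((p + 2 + (s + 1)).choose (s + 1) : ℝ) ≤ (2 * R) ^ (s + 1) := by
        have h5 : (p + 2 + (s + 1)).choose (s + 1) ≤ (2 * R) ^ (s + 1) :=
          (Nat.choose_le_pow _ _).trans (Nat.pow_le_pow_left (by omega) _)
        exact_mod_cast h5
      have h5 : u ^ (p + 2) ≤ 1 := pow_le_one₀ h0 h1.le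
      calc _ ≤ (2 * (R : ℝ)) ^ (s + 1) * 1 * ε ^ (s + 2) :=
            mul_le_mul_of_nonneg_right (mul_le_mul h4 h5 (by positivity) (by positivity))
              (by positivity)
        _ = _ := by ring
    calc ∑ p ∈ range R, K u s p ≤ ∑ p ∈ range R, ((2 * R : ℝ)) ^ (s + 1) * ε ^ (s + 2) :=
          Finset.sum_le_sum h3
      _ = R * ((2 * R) ^ (s + 1) * ε ^ (s + 2)) := by rw [Finset.sum_const, card_range, nsmul_eq_mul]
      _ ≤ (2 * R) * ((2 * R) ^ (s + 1) * ε ^ (s + 2)) := by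
          apply mul_le_mul_of_nonneg_right _ (by positivity)
          linarith
      _ = (2 * R * ε) ^ (s + 2) := by rw [mul_pow (2 * (R : ℝ)) ε]; ring
      _ ≤ (1 / 4) ^ (s + 2) := by
          apply pow_le_pow_left₀ (by positivity)
          rw [hεR]
          rw [mul_one_div, div_le_div_iff₀ (by positivity) (by norm_num)]
          have h9 : (R : ℝ) ^ 4 = R * R ^ 3 := by ring
          have h8 : (16 : ℝ) ^ 3 ≤ R ^ 3 := pow_le_pow_left₀ (by norm_num) hR16' 3
          rw [h9]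
          nlinarith
      _ ≤ (1 / 4) ^ 1 := pow_le_pow_of_le_one (by norm_num) (by norm_num) (by omega)
      _ = 1 / 4 := by norm_num
  have hG : Summable (fun p => K u s p * (G s - G (s + p + 1))) :=
    summable_K_mul h0 h1 s (fun p => abs_G_sub _ _)
  have h2 := hG.sum_add_tsum_nat_add R
  have h3 : 0 ≤ ∑ p ∈ range R, K u s p * (G s - G (s + p + 1)) :=
    Finset.sum_nonneg fun p _ => mul_nonneg (K_nonneg h0 h1.le s p) (sub_nonneg.2 (G_anti (by omega)))
  have h4 := hK.summable.sum_add_tsum_nat_add R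
  rw [hK.tsum_eq] at h4
  have h5 : (∑' p, K u s (p + R)) * (1 / 2) ^ (ell s + 2) ≤
      ∑' p, K u s (p + R) * (G s - G (s + (p + R) + 1)) := by
    rw [← tsum_mul_right]
    have hs1 : Summable fun p => K u s (p + R) := (summable_nat_add_iff R).2 hK.summable
    have hs2 : Summable fun p => K u s (p + R) * (G s - G (s + (p + R) + 1)) :=
      (summable_nat_add_iff (f := fun p => K u s p * (G s - G (s + p + 1))) R).2 hG
    apply (hs1.mul_right _).tsum_le_tsum _ hs2
    intro p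
    apply mul_le_mul_of_nonneg_left _ (K_nonneg h0 h1.le s _)
    have h6 := hfar (s + (p + R) + 1) (by omega)
    have h7 : G s = (1 / 2) ^ (ell s + 1) := rfl
    rw [h7]
    have h8 : ((1 : ℝ) / 2) ^ (ell s + 1) = 2 * (1 / 2) ^ (ell s + 2) := by ring
    rw [h8]
    linarith
  have h6 : 1 / 2 ≤ ∑' p, K u s (p + R) := by linarith
  have h7 : ((1 : ℝ) / 2) ^ (ell s + 3) = 1 / 2 * (1 / 2) ^ (ell s + 2) := by ring
  rw [← h2, h7]
  have h8 := mul_le_mul_of_nonneg_right h6 (by positivity : (0 : ℝ) ≤ (1 / 2) ^ (ell s + 2))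
  linarith

lemma tsum_G_big (s : ℕ) :
    (1 / 2) ^ (ell s + 3) ≤
      ∑' p, K (1 - (1 / 2) ^ 4 ^ (ell s + 2)) s p * (G s - G (s + p + 1)) := by
  apply tsum_G_big_aux s (2 ^ 4 ^ (ell s + 1)) _ (lt_two_pow s) _ _ (fun t ht => G_far s t ht)
  · calc 16 = 2 ^ 4 ^ 1 := by norm_num
      _ ≤ 2 ^ 4 ^ (ell s + 1) :=
        Nat.pow_le_pow_right (by norm_num) (Nat.pow_le_pow_right (by norm_num) (by omega))
  · push_cast
    rw [← pow_mul, show 4 ^ (ell s + 1) * 4 = 4 ^ (ell s + 2) by ring, ← mul_pow]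
    norm_num

end Pool.Agent.LambdaFV
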