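import Mathlib

/-!
# `Λ`-Fleming-Viot processes and their Eves: definitions
-/

open MeasureTheory Filter Topology
open scoped NNReal ENNReal unitInterval

namespace Pool.Agent.LambdaFV

/-- The measure `ν(du) = u⁻² Λ(du)` on `(0,1]`. -/
noncomputable def nu (Λ : Measure ℝ) : Measure ℝ :=
  (Λ.restrict (Set.Ioc 0 1)).withDensity fun u => ENNReal.ofReal ((u ^ 2)⁻¹)

/-- `Ψ(q) = ∫_{(0,1]} (e^{-qu} - 1 + qu) ν(du)`. -/
noncomputable def Psi (Λ : Measure ℝ) (q : ℝ) : ℝ :=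
  ∫ u, (Real.exp (-(q * u)) - 1 + q * u) ∂(nu Λ)

/-- `Λ` is a finite measure on `[0,1]` in the regime Intensive `∞`. -/
structure IntensiveInfty (Λ : Measure ℝ) : Prop where
  /-- `Λ` is a finite measure, -/
  finite : IsFiniteMeasure Λ
  /-- carried by `[0,1]`; -/
  supp : Λ (Set.Icc 0 1)ᶜ = 0
  /-- `Λ({0}) = 0`; -/
  zero : Λ {0} = 0
  /-- `∫_{(0,1)} u ν(du) = ∞`; -/
  noDust : ∫⁻ u in Set.Ioo 0 1, ENNReal.ofReal u ∂(nu Λ) = ⊤
  /-- `∫^∞ dq / Ψ(q) = ∞`. -/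
  notComingDown : ∀ a : ℝ, 0 < a → ∫⁻ q in Set.Ioi a, ENNReal.ofReal ((Psi Λ q)⁻¹) = ⊤

/-- The population `(1-u) μ + u δ_x` after a reproduction event of size `u` with parental type
`x`. -/
noncomputable def afterEvent (μ : Measure I) (u : ℝ) (x : I) : Measure I :=
  ENNReal.ofReal (1 - u) • μ + ENNReal.ofReal u • Measure.dirac x

/-- The generator of the `Λ`-Fleming-Viot process when `Λ({0}) = 0`: at rate `ν(du)`, a type `x`
is sampled from the current population `μ`, which is replaced by `(1-u) μ + u δ_x`. -/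
noncomputable def generator (Λ : Measure ℝ) (F : Measure I → ℝ) (μ : Measure I) : ℝ :=
  ∫ u, ∫ x, (F (afterEvent μ u x) - F μ) ∂μ ∂(nu Λ)

/-- The test functions `μ ↦ ∏ᵢ ⟨fᵢ, μ⟩` with `fᵢ` continuous on `[0,1]`. -/
noncomputable def monomial {n : ℕ} (f : Fin n → C(I, ℝ)) (μ : Measure I) : ℝ :=
  ∏ i, ∫ x, f i x ∂μ

/-- `ρ` is (a version of) the `Λ`-Fleming-Viot process, for `Λ({0}) = 0`, started from Lebesgue
measure on `[0,1]`: it is adapted, càdlàg for the weak topology, starts from Lebesgue measure, and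
solves the martingale problem for the generator and the test functions `μ ↦ ∏ᵢ ⟨fᵢ, μ⟩`. -/
structure IsFlemingViot (Λ : Measure ℝ) {Ω : Type*} {mΩ : MeasurableSpace Ω} (P : Measure Ω)
    (𝓕 : Filtration ℝ≥0 mΩ) (ρ : ℝ≥0 → Ω → ProbabilityMeasure I) : Prop where
  /-- `ρ t` is `𝓕 t`-measurable. -/
  adapted : ∀ (t : ℝ≥0) (f : C(I, ℝ)),
    Measurable[𝓕 t] fun ω => ∫ x, f x ∂(ρ t ω : Measure I)
  /-- The paths are right-continuous -/
  rightCont : ∀ ω (t : ℝ≥0), ContinuousWithinAt (fun s => ρ s ω) (Set.Ici t) t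
  /-- and have left limits. -/
  leftLim : ∀ ω (t : ℝ≥0), ∃ l, Tendsto (fun s => ρ s ω) (𝓝[<] t) (𝓝 l)
  /-- The initial value is Lebesgue measure on `[0,1]`. -/
  init : ∀ᵐ ω ∂P, (ρ 0 ω : Measure I) = volume
  /-- The martingale problem. -/
  martingale : ∀ (n : ℕ) (f : Fin n → C(I, ℝ)),
    Martingale (fun t ω => monomial f (ρ t ω : Measure I) -
      ∫ s in (0 : ℝ)..t, generator Λ (monomial f) (ρ s.toNNReal ω : Measure I)) 𝓕 P

/-- `ρ` admits an infinite sequence of Eves: almost surely there are distinct points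
`e 0, e 1, …` of `[0,1]` such that for each `i`, the ratio
`ρ_t({e i}) / ρ_t([0,1] \ {e 0, …, e (i-1)})` tends to `1` as `t → ∞`. -/
def AdmitsEves {Ω : Type*} {mΩ : MeasurableSpace Ω} (P : Measure Ω)
    (ρ : ℝ≥0 → Ω → ProbabilityMeasure I) : Prop :=
  ∀ᵐ ω ∂P, ∃ e : ℕ → I, Function.Injective e ∧ ∀ i : ℕ,
    Tendsto (fun t : ℝ≥0 => (ρ t ω : Measure I).real {e i} /
      (ρ t ω : Measure I).real {x | ∀ j < i, x ≠ e j}) atTop (𝓝 1)

end Pool.Agent.LambdaFV
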