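import Pool.Agent.LambdaFV.Defs
import Pool.Agent.LambdaFV.Atoms

/-!
# The measure `Λ₀` and its regime
-/

open MeasureTheory Filter Topology Finset
open scoped NNReal ENNReal unitInterval

namespace Pool.Agent.LambdaFV

/-- The small atoms of `ν₀`. -/
noncomputable def nuS : Measure ℝ :=
  Measure.sum fun n : ℕ => ENNReal.ofReal (ws n) • Measure.dirac (us n)

/-- The big atoms of `ν₀`. -/
noncomputable def nuB : Measure ℝ :=
  Measure.sum fun i : ℕ => ENNReal.ofReal (wb i) • Measure.dirac (ub i)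

/-- The reproduction measure
`ν₀ = ∑_{n ≥ 1} (2ⁿ/n) δ_{2⁻ⁿ} + ∑_{i ≥ 0} 64·2⁻ⁱ δ_{1 - 2^(-4^(i+2))}`. -/
noncomputable def nu0 : Measure ℝ := nuS + nuB

/-- The measure `Λ₀(du) = u² ν₀(du)`. -/
noncomputable def Lambda0 : Measure ℝ := nu0.withDensity fun u => ENNReal.ofReal (u ^ 2)

lemma us_lt_one (n : ℕ) : us n < 1 := by have := us_le n; linarith

lemma ae_nu0 {p : ℝ → Prop} (h1 : ∀ n, p (us n)) (h2 : ∀ n, p (ub n)) : ∀ᵐ u ∂nu0, p u := by
  unfold nu0 nuS nuB
  rw [ae_add_measure_iff, Measure.ae_sum_iff, Measure.ae_sum_iff]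
  constructor
  · intro n
    apply Measure.ae_smul_measure
    rw [ae_dirac_eq]
    exact h1 n
  · intro n
    apply Measure.ae_smul_measure
    rw [ae_dirac_eq]
    exact h2 n

lemma ae_nu0_mem : ∀ᵐ u ∂nu0, u ∈ Set.Ioo (0 : ℝ) 1 :=
  ae_nu0 (fun n => ⟨us_pos n, us_lt_one n⟩) (fun n => ⟨ub_pos n, ub_lt_one n⟩)

lemma integrable_nu0 {f : ℝ → ℝ} {C : ℝ} (hf : ∀ u, 0 < u → u < 1 → |f u| ≤ C * u ^ 2) :
    Integrable f nu0 := by
  have hC : 0 ≤ C := by
    have h := (abs_nonneg _).trans (hf (us 0) (us_pos 0) (us_lt_one 0))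
    have h2 : 0 < us 0 ^ 2 := pow_pos (us_pos 0) 2
    exact nonneg_of_mul_nonneg_left h h2
  unfold nu0 nuS nuB
  rw [integrable_add_measure]
  constructor
  · apply integrable_sum_dirac (fun n => ENNReal.ofReal_ne_top)
    simp_rw [fun n => ENNReal.toReal_ofReal (ws_pos n).le, Real.norm_eq_abs]
    exact summable_small (f := fun u => |f u|) (C := C) fun n => by
      rw [abs_abs]; exact hf _ (us_pos n) (us_lt_one n)
  · apply integrable_sum_dirac (fun n => ENNReal.ofReal_ne_top)
    simp_rw [fun n => ENNReal.toReal_ofReal (wb_pos n).le, Real.norm_eq_abs]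
    refine summable_big (f := fun u => |f u|) (C := C) fun n => ?_
    rw [abs_abs]
    refine (hf _ (ub_pos n) (ub_lt_one n)).trans ?_
    exact mul_le_of_le_one_right hC (pow_le_one₀ (ub_nonneg n) (ub_lt_one n).le)

lemma integral_nu0 {f : ℝ → ℝ} (hf : Integrable f nu0) :
    ∫ u, f u ∂nu0 = ∑' n, ws n * f (us n) + ∑' n, wb n * f (ub n) := by
  unfold nu0 at hf ⊢
  rw [integrable_add_measure] at hf
  rw [integral_add_measure hf.1 hf.2]
  congr 1
  · have h := hasSum_integral_measure hf.1
    have h2 : HasSum (fun n => ∫ u, f u ∂(ENNReal.ofReal (ws n) • Measure.dirac (us n)))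
      (∫ u, f u ∂nuS) := h
    rw [← h2.tsum_eq]
    apply tsum_congr
    intro n
    rw [integral_smul_measure, integral_dirac, ENNReal.toReal_ofReal (ws_pos n).le, smul_eq_mul]
  · have h := hasSum_integral_measure hf.2
    have h2 : HasSum (fun n => ∫ u, f u ∂(ENNReal.ofReal (wb n) • Measure.dirac (ub n)))
      (∫ u, f u ∂nuB) := h
    rw [← h2.tsum_eq]
    apply tsum_congr
    intro n
    rw [integral_smul_measure, integral_dirac, ENNReal.toReal_ofReal (wb_pos n).le, smul_eq_mul]

lemma nu_Lambda0 : nu Lambda0 = nu0 := by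
  have hm1 : Measurable fun u : ℝ => ENNReal.ofReal (u ^ 2) := by fun_prop
  have hm2 : Measurable fun u : ℝ => ENNReal.ofReal ((u ^ 2)⁻¹) := by fun_prop
  unfold nu Lambda0
  rw [restrict_withDensity measurableSet_Ioc, ← withDensity_mul _ hm1 hm2]
  have h1 : nu0.restrict (Set.Ioc 0 1) = nu0 := by
    apply Measure.restrict_eq_self_of_ae_mem
    filter_upwards [ae_nu0_mem] with u hu
    exact ⟨hu.1, hu.2.le⟩
  rw [h1]
  have h2 : nu0.withDensity ((fun u : ℝ => ENNReal.ofReal (u ^ 2)) * fun u : ℝ =>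
      ENNReal.ofReal ((u ^ 2)⁻¹)) = nu0.withDensity 1 := by
    apply withDensity_congr_ae
    filter_upwards [ae_nu0_mem] with u hu
    have hu2 : 0 < u ^ 2 := pow_pos hu.1 2
    simp only [Pi.mul_apply, Pi.one_apply]
    rw [← ENNReal.ofReal_mul hu2.le, mul_inv_cancel₀ hu2.ne', ENNReal.ofReal_one]
  rw [h2, withDensity_one]

lemma integrable_sq : Integrable (fun u : ℝ => u ^ 2) nu0 :=
  integrable_nu0 (C := 1) fun u _ _ => by rw [one_mul, abs_of_nonneg (sq_nonneg u)]

lemma isFinite_Lambda0 : IsFiniteMeasure Lambda0 := by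
  unfold Lambda0
  apply isFiniteMeasure_withDensity_ofReal
  exact integrable_sq.2

lemma Lambda0_null {s : Set ℝ} (hs : Set.Ioo 0 1 ⊆ sᶜ) : Lambda0 s = 0 := by
  have h1 : nu0 s = 0 := by
    have := ae_nu0_mem
    rw [ae_iff] at this
    refine measure_mono_null ?_ this
    intro x hx hx2
    exact hs hx2 hx
  exact withDensity_absolutelyContinuous _ _ h1

lemma noDust_Lambda0 : ∫⁻ u in Set.Ioo 0 1, ENNReal.ofReal u ∂(nu Lambda0) = ⊤ := by
  rw [nu_Lambda0, Measure.restrict_eq_self_of_ae_mem ae_nu0_mem]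
  unfold nu0
  rw [lintegral_add_measure, nuS, lintegral_sum_measure]
  have h : ∑' n : ℕ, ∫⁻ u, ENNReal.ofReal u ∂(ENNReal.ofReal (ws n) • Measure.dirac (us n)) = ⊤ := by
    by_contra hne
    have h1 := ENNReal.summable_toReal hne
    have h2 : ∀ n : ℕ, (∫⁻ u, ENNReal.ofReal u ∂(ENNReal.ofReal (ws n) • Measure.dirac (us n))).toReal
        = 1 / ((n : ℝ) + 1) := by
      intro n
      rw [lintegral_smul_measure, lintegral_dirac, smul_eq_mul,
        ← ENNReal.ofReal_mul (ws_pos n).le, ws_mul_us, ENNReal.toReal_ofReal (by positivity)]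
    simp_rw [h2] at h1
    have h3 : Summable fun n : ℕ => 1 / (n : ℝ) := by
      rw [← summable_nat_add_iff 1]
      simpa using h1
    exact Real.not_summable_one_div_natCast h3
  rw [h, top_add]

lemma g_nonneg (x : ℝ) : 0 ≤ Real.exp (-x) - 1 + x := by
  have := Real.add_one_le_exp (-x)
  linarith

lemma g_le {x : ℝ} (hx : 0 ≤ x) : Real.exp (-x) - 1 + x ≤ x := by
  have : Real.exp (-x) ≤ 1 := Real.exp_le_one_iff.2 (by linarith)
  linarith

lemma g_le_sq {x : ℝ} (hx : 0 ≤ x) : Real.exp (-x) - 1 + x ≤ x ^ 2 := by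
  rcases le_total x 1 with h | h
  · have := Real.abs_exp_sub_one_sub_id_le (x := -x) (by rw [abs_neg, abs_of_nonneg hx]; exact h)
    have h2 := (abs_le.1 this).2
    rw [neg_sq] at h2
    linarith
  · have := g_le hx
    nlinarith

lemma Psi_le {q : ℝ} (hq : 0 < q) (N : ℕ) (hqN : q ≤ 2 ^ N) : Psi Lambda0 q ≤ q * (N + 129) := by
  unfold Psi
  rw [nu_Lambda0]
  have hint : Integrable (fun u => Real.exp (-(q * u)) - 1 + q * u) nu0 := by
    apply integrable_nu0 (C := q ^ 2)
    intro u h0 _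
    rw [abs_of_nonneg (g_nonneg _), ← mul_pow]
    exact g_le_sq (by positivity)
  rw [integral_nu0 hint]
  have hs1 : Summable fun n => ws n * (Real.exp (-(q * us n)) - 1 + q * us n) :=
    summable_small (f := fun u => Real.exp (-(q * u)) - 1 + q * u) (C := q ^ 2) fun n => by
      rw [abs_of_nonneg (g_nonneg _), ← mul_pow]
      exact g_le_sq (mul_nonneg hq.le (us_pos n).le)
  have hA : ∀ n, ws (n + N) * (Real.exp (-(q * us (n + N))) - 1 + q * us (n + N)) ≤
      (q / 2) * (1 / 2) ^ n := by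
    intro n
    calc _ ≤ ws (n + N) * (q * us (n + N)) ^ 2 :=
          mul_le_mul_of_nonneg_left (g_le_sq (mul_nonneg hq.le (us_pos _).le)) (ws_pos _).le
      _ = q ^ 2 * us (n + N) * (ws (n + N) * us (n + N)) := by ring
      _ = q ^ 2 * us (n + N) * (1 / (((n + N : ℕ) : ℝ) + 1)) := by rw [ws_mul_us]
      _ ≤ q ^ 2 * us (n + N) * 1 := by
          apply mul_le_mul_of_nonneg_left _ (mul_nonneg (sq_nonneg q) (us_pos _).le)
          rw [div_le_one (by positivity)]
          have : (0 : ℝ) ≤ ((n + N : ℕ) : ℝ) := by positivity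
          linarith
      _ ≤ (q * 2 ^ N) * us (n + N) * 1 := by
          apply mul_le_mul_of_nonneg_right _ (by norm_num)
          apply mul_le_mul_of_nonneg_right _ (us_pos _).le
          nlinarith
      _ = _ := by
          unfold us
          rw [show n + N + 1 = n + (N + 1) by ring, pow_add, one_div, inv_pow, inv_pow]
          field_simp
          ring
  have h1 := tsum_split_le hs1 N hA
  have h2 : ∑ n ∈ range N, ws n * (Real.exp (-(q * us n)) - 1 + q * us n) ≤ N * q := by
    calc _ ≤ ∑ n ∈ range N, q := by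
          apply Finset.sum_le_sum
          intro n _
          calc _ ≤ ws n * (q * us n) :=
                mul_le_mul_of_nonneg_left (g_le (mul_nonneg hq.le (us_pos _).le)) (ws_pos _).le
            _ = q * (ws n * us n) := by ring
            _ = q * (1 / (n + 1)) := by rw [ws_mul_us]
            _ ≤ q * 1 := by
                apply mul_le_mul_of_nonneg_left _ hq.le
                rw [div_le_one (by positivity)]
                have : (0 : ℝ) ≤ (n : ℝ) := by positivity
                linarith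
            _ = q := mul_one _
      _ = N * q := by rw [Finset.sum_const, card_range, nsmul_eq_mul]
  have h3 : ∑' n, wb n * (Real.exp (-(q * ub n)) - 1 + q * ub n) ≤ 128 * q := by
    have hg : HasSum (fun n : ℕ => 64 * q * (1 / 2 : ℝ) ^ n) (64 * q * 2) :=
      hasSum_geometric_two.mul_left _
    have hle : ∀ n, wb n * (Real.exp (-(q * ub n)) - 1 + q * ub n) ≤ 64 * q * (1 / 2 : ℝ) ^ n := by
      intro n
      calc _ ≤ wb n * (q * ub n) :=
            mul_le_mul_of_nonneg_left (g_le (mul_nonneg hq.le (ub_nonneg _))) (wb_pos _).le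
        _ ≤ wb n * (q * 1) := by
            apply mul_le_mul_of_nonneg_left _ (wb_pos _).le
            apply mul_le_mul_of_nonneg_left (ub_lt_one n).le hq.le
        _ = _ := by unfold wb; ring
    have hs : Summable fun n => wb n * (Real.exp (-(q * ub n)) - 1 + q * ub n) :=
      Summable.of_nonneg_of_le (fun n => mul_nonneg (wb_pos n).le (g_nonneg _)) hle hg.summable
    calc _ ≤ ∑' n : ℕ, 64 * q * (1 / 2 : ℝ) ^ n := hs.tsum_le_tsum hle hg.summable
      _ = 64 * q * 2 := hg.tsum_eq
      _ = _ := by ring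
  linarith

lemma Psi_pos {q : ℝ} (hq : 0 < q) : 0 < Psi Lambda0 q := by
  unfold Psi
  rw [nu_Lambda0]
  have hint : Integrable (fun u => Real.exp (-(q * u)) - 1 + q * u) nu0 := by
    apply integrable_nu0 (C := q ^ 2)
    intro u h0 _
    rw [abs_of_nonneg (g_nonneg _), ← mul_pow]
    exact g_le_sq (by positivity)
  rw [integral_nu0 hint]
  have hs1 : Summable fun n => ws n * (Real.exp (-(q * us n)) - 1 + q * us n) :=
    summable_small (f := fun u => Real.exp (-(q * u)) - 1 + q * u) (C := q ^ 2) fun n => by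
      rw [abs_of_nonneg (g_nonneg _), ← mul_pow]
      exact g_le_sq (mul_nonneg hq.le (us_pos n).le)
  have h1 : 0 < ∑' n, ws n * (Real.exp (-(q * us n)) - 1 + q * us n) := by
    apply hs1.tsum_pos (fun n => mul_nonneg (ws_pos n).le (g_nonneg _)) 0
    apply mul_pos (ws_pos 0)
    have hne : -(q * us 0) ≠ 0 := by
      have := us_pos 0
      have : 0 < q * us 0 := by positivity
      linarith
    have := Real.add_one_lt_exp hne
    linarith
  have h2 : 0 ≤ ∑' n, wb n * (Real.exp (-(q * ub n)) - 1 + q * ub n) :=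
    tsum_nonneg fun n => mul_nonneg (wb_pos n).le (g_nonneg _)
  linarith

lemma notComingDown_Lambda0 (a : ℝ) (ha : 0 < a) :
    ∫⁻ q in Set.Ioi a, ENNReal.ofReal ((Psi Lambda0 q)⁻¹) = ⊤ := by
  obtain ⟨N0, hN0⟩ := pow_unbounded_of_one_lt a (by norm_num : (1 : ℝ) < 2)
  set s : ℕ → Set ℝ := fun N => Set.Ioc ((2 : ℝ) ^ (N + N0)) (2 ^ (N + N0 + 1)) with hs
  have hsub : (⋃ N, s N) ⊆ Set.Ioi a := by
    intro x hx
    obtain ⟨N, hN⟩ := Set.mem_iUnion.1 hx
    have h1 : (2 : ℝ) ^ N0 ≤ 2 ^ (N + N0) := pow_le_pow_right₀ (by norm_num) (by omega)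
    exact lt_of_lt_of_le hN0 (h1.trans hN.1.le)
  have hdisj : Pairwise (Function.onFun Disjoint s) := by
    have hmono : Monotone fun N : ℕ => (2 : ℝ) ^ (N + N0) := fun i j hij =>
      pow_le_pow_right₀ (by norm_num) (by omega)
    have := hmono.pairwise_disjoint_on_Ioc_succ
    intro i j hij
    have h2 := this hij
    simp only [Function.onFun, Order.succ_eq_add_one] at h2 ⊢
    have e : ∀ i : ℕ, s i = Set.Ioc ((2 : ℝ) ^ (i + N0)) (2 ^ (i + 1 + N0)) := by
      intro i
      rw [hs]
      simp only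
      congr 2
      ring
    rw [e, e]
    exact h2
  have h1 : ∀ N : ℕ, ENNReal.ofReal (1 / (2 * ((N : ℝ) + N0 + 130))) ≤
      ∫⁻ q in s N, ENNReal.ofReal ((Psi Lambda0 q)⁻¹) := by
    intro N
    have hlow : ∀ q ∈ s N, ENNReal.ofReal (1 / (2 ^ (N + N0 + 1) * ((N : ℝ) + N0 + 130))) ≤
        ENNReal.ofReal ((Psi Lambda0 q)⁻¹) := by
      intro q hq
      apply ENNReal.ofReal_le_ofReal
      have hq0 : 0 < q := lt_trans (by positivity) hq.1
      have h2 := Psi_le hq0 (N + N0 + 1) hq.2
      rw [one_div]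
      apply inv_anti₀ (Psi_pos hq0)
      refine h2.trans ?_
      push_cast
      apply mul_le_mul hq.2 (by linarith) (by positivity) (by positivity)
    calc ENNReal.ofReal (1 / (2 * ((N : ℝ) + N0 + 130))) =
        ENNReal.ofReal (1 / (2 ^ (N + N0 + 1) * ((N : ℝ) + N0 + 130))) * volume (s N) := by
          rw [hs]
          simp only [Real.volume_Ioc]
          rw [← ENNReal.ofReal_mul (by positivity)]
          congr 1
          rw [pow_succ]
          field_simp
          ring
      _ = ∫⁻ q in s N, ENNReal.ofReal (1 / (2 ^ (N + N0 + 1) * ((N : ℝ) + N0 + 130))) := by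
          rw [setLIntegral_const]
      _ ≤ _ := setLIntegral_mono' measurableSet_Ioc hlow
  rw [eq_top_iff]
  calc (⊤ : ℝ≥0∞) = ∑' N : ℕ, ENNReal.ofReal (1 / (2 * ((N : ℝ) + N0 + 130))) := by
        symm
        by_contra hne
        have h2 := ENNReal.summable_toReal hne
        have h3 : ∀ N : ℕ, (ENNReal.ofReal (1 / (2 * ((N : ℝ) + N0 + 130)))).toReal =
            1 / 2 * (1 / ((N + (N0 + 130) : ℕ) : ℝ)) := by
          intro N
          rw [ENNReal.toReal_ofReal (by positivity)]
          push_cast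
          field_simp
          ring
        simp_rw [h3] at h2
        have h4 : Summable fun n : ℕ => 1 / (n : ℝ) := by
          rw [← summable_nat_add_iff (N0 + 130)]
          exact (summable_mul_left_iff (by norm_num)).1 h2
        exact Real.not_summable_one_div_natCast h4
    _ ≤ ∑' N, ∫⁻ q in s N, ENNReal.ofReal ((Psi Lambda0 q)⁻¹) := ENNReal.tsum_le_tsum h1
    _ = ∫⁻ q in ⋃ N, s N, ENNReal.ofReal ((Psi Lambda0 q)⁻¹) :=
        (lintegral_iUnion (fun N => measurableSet_Ioc) hdisj _).symm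
    _ ≤ _ := lintegral_mono_set hsub

theorem intensive_Lambda0 : IntensiveInfty Lambda0 where
  finite := isFinite_Lambda0
  supp := Lambda0_null (by
    intro x hx
    rw [compl_compl]
    exact ⟨hx.1.le, hx.2.le⟩)
  zero := Lambda0_null (by
    intro x hx h
    rw [Set.mem_singleton_iff] at h
    rw [h] at hx
    exact lt_irrefl _ hx.1)
  noDust := noDust_Lambda0
  notComingDown := notComingDown_Lambda0

lemma Lambda0_one : Lambda0 {1} = 0 := Lambda0_null (by
    intro x hx h
    rw [Set.mem_singleton_iff] at h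
    rw [h] at hx
    exact lt_irrefl _ hx.2)

end Pool.Agent.LambdaFV
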