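import Pool.Agent.LambdaFV.Defs

/-!
# Moment equations for `Λ`-Fleming-Viot processes
-/

open MeasureTheory Filter Topology Finset
open scoped NNReal ENNReal unitInterval

namespace Pool.Agent.LambdaFV

/-- A right-continuous function on `ℝ≥0` is measurable. -/
lemma measurable_of_rightCont {X : ℝ≥0 → ℝ} (h : ∀ t, ContinuousWithinAt X (Set.Ici t) t) :
    Measurable X := by
  have hlim : ∀ s, Tendsto (fun n : ℕ => X (((⌊((n : ℝ≥0) + 1) * s⌋₊ : ℝ≥0) + 1) / (n + 1))) atTop
      (𝓝 (X s)) := by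
    intro s
    apply (h s).tendsto.comp
    rw [tendsto_nhdsWithin_iff]
    constructor
    · have h1 : Tendsto (fun n : ℕ => s + 1 / ((n : ℝ≥0) + 1)) atTop (𝓝 (s + 0)) := by
        apply Tendsto.const_add
        exact tendsto_one_div_add_atTop_nhds_zero_nat
      rw [add_zero] at h1
      refine tendsto_of_tendsto_of_tendsto_of_le_of_le tendsto_const_nhds h1 ?_ ?_
      · intro n
        rw [le_div_iff₀ (by positivity)]
        have := (Nat.lt_floor_add_one (((n : ℝ≥0) + 1) * s)).le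
        rw [mul_comm]
        exact this
      · intro n
        show _ ≤ s + 1 / ((n : ℝ≥0) + 1)
        have e : (s + 1 / ((n : ℝ≥0) + 1)) * (n + 1) = ((n : ℝ≥0) + 1) * s + 1 := by
          field_simp
        rw [div_le_iff₀ (by positivity), e]
        have := Nat.floor_le (a := ((n : ℝ≥0) + 1) * s) (by positivity)
        gcongr
    · filter_upwards with n
      show s ≤ _
      rw [le_div_iff₀ (by positivity)]
      have := (Nat.lt_floor_add_one (((n : ℝ≥0) + 1) * s)).le
      rw [mul_comm]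
      exact this
  refine measurable_of_tendsto_metrizable (f := fun (n : ℕ) (s : ℝ≥0) =>
    X (((⌊((n : ℝ≥0) + 1) * s⌋₊ : ℝ≥0) + 1) / (n + 1))) ?_ (tendsto_pi_nhds.2 hlim)
  intro n
  have h1 : Measurable fun k : ℕ => X (((k : ℝ≥0) + 1) / (n + 1)) := measurable_from_top
  exact h1.comp (Nat.measurable_floor.comp (measurable_id.const_mul _))

/-- `∏ᵢ ⟨fᵢ, μ⟩`. -/
noncomputable def Pi {n : ℕ} (f : Fin n → I → ℝ) (μ : Measure I) : ℝ := ∏ i, ∫ x, f i x ∂μ

/-- The value after a merger of the sampled individuals in `J`. -/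
noncomputable def AJ {n : ℕ} (f : Fin n → I → ℝ) (μ : Measure I) (J : Finset (Fin n)) : ℝ :=
  (∫ x, ∏ i ∈ J, f i x ∂μ) * ∏ i ∈ Jᶜ, ∫ x, f i x ∂μ

/-- The generator on products, in merger form. -/
noncomputable def gS {n : ℕ} (c : Finset (Fin n) → ℝ) (f : Fin n → I → ℝ) (μ : Measure I) : ℝ :=
  ∑ J : Finset (Fin n), c J * (AJ f μ J - Pi f μ)

/-- The merger rates. -/
noncomputable def lam (ν : Measure ℝ) (n : ℕ) (J : Finset (Fin n)) : ℝ :=
  ∫ u, u ^ J.card * (1 - u) ^ Jᶜ.card ∂ν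

lemma AJ_eq_of_card_le_one {n : ℕ} (f : Fin n → I → ℝ) (μ : Measure I) [IsProbabilityMeasure μ]
    (J : Finset (Fin n)) (hJ : J.card ≤ 1) : AJ f μ J = Pi f μ := by
  rcases Nat.le_one_iff_eq_zero_or_eq_one.1 hJ with h | h
  · rw [Finset.card_eq_zero] at h
    subst h
    simp [AJ, Pi]
  · rw [Finset.card_eq_one] at h
    obtain ⟨i, rfl⟩ := h
    unfold AJ Pi
    rw [← Finset.prod_mul_prod_compl ({i} : Finset (Fin n)) (fun i => ∫ x, f i x ∂μ)]
    simp

lemma Phi_expand {n : ℕ} (f : Fin n → I → ℝ) (hf : ∀ i, Measurable (f i))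
    (hb : ∀ i x, |f i x| ≤ 1) (μ : Measure I) [IsProbabilityMeasure μ] (u : ℝ) :
    (∫ x, ∏ i, ((1 - u) * (∫ y, f i y ∂μ) + u * f i x) ∂μ) - ∏ i, ∫ x, f i x ∂μ =
      ∑ J : Finset (Fin n), u ^ J.card * (1 - u) ^ Jᶜ.card * (AJ f μ J - Pi f μ) := by
  have h1 : ∀ x, ∏ i, ((1 - u) * (∫ y, f i y ∂μ) + u * f i x) =
      ∑ J : Finset (Fin n), u ^ J.card * (1 - u) ^ Jᶜ.card *
        ((∏ i ∈ J, f i x) * ∏ i ∈ Jᶜ, ∫ y, f i y ∂μ) := by
    intro x
    simp_rw [add_comm ((1 - u) * _)]
    rw [Finset.prod_add]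
    simp only [Finset.powerset_univ]
    apply Finset.sum_congr rfl
    intro J _
    rw [Finset.prod_mul_distrib, Finset.prod_mul_distrib, Finset.prod_const, Finset.prod_const,
      ← Finset.compl_eq_univ_sdiff]
    ring
  have hint : ∀ J : Finset (Fin n), Integrable (fun x => ∏ i ∈ J, f i x) μ := by
    intro J
    refine Integrable.of_bound (C := 1) ?_ ?_
    · exact (Finset.measurable_prod J fun i _ => hf i).aestronglyMeasurable
    · filter_upwards with x
      rw [Real.norm_eq_abs, Finset.abs_prod]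
      exact Finset.prod_le_one (fun i _ => abs_nonneg _) (fun i _ => hb i x)
  have h2 : ∫ x, ∏ i, ((1 - u) * (∫ y, f i y ∂μ) + u * f i x) ∂μ =
      ∑ J : Finset (Fin n), u ^ J.card * (1 - u) ^ Jᶜ.card * AJ f μ J := by
    simp_rw [h1]
    rw [integral_finsetSum]
    · apply Finset.sum_congr rfl
      intro J _
      rw [integral_const_mul, integral_mul_const]
      rfl
    · intro J _
      exact ((hint J).mul_const _).const_mul _
  have h3 : ∏ i, ∫ x, f i x ∂μ =
      ∑ J : Finset (Fin n), u ^ J.card * (1 - u) ^ Jᶜ.card * Pi f μ := by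
    rw [← Finset.sum_mul]
    have : ∑ J : Finset (Fin n), u ^ J.card * (1 - u) ^ Jᶜ.card = 1 := by
      have h4 := Finset.prod_add (fun _ : Fin n => u) (fun _ => 1 - u) Finset.univ
      simp only [Finset.powerset_univ, Finset.prod_const, ← Finset.compl_eq_univ_sdiff] at h4
      rw [← h4]
      simp
    rw [this, one_mul]
    rfl
  rw [h2]
  nth_rewrite 1 [h3]
  rw [← Finset.sum_sub_distrib]
  apply Finset.sum_congr rfl
  intro J _
  ring

lemma integral_Phi {n : ℕ} (f : Fin n → I → ℝ) (hf : ∀ i, Measurable (f i))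
    (hb : ∀ i x, |f i x| ≤ 1) (μ : Measure I) [IsProbabilityMeasure μ] (ν : Measure ℝ)
    (hν : Integrable (fun u => u ^ 2) ν) (hsupp : ∀ᵐ u ∂ν, 0 ≤ u ∧ u ≤ 1) :
    ∫ u, ((∫ x, ∏ i, ((1 - u) * (∫ y, f i y ∂μ) + u * f i x) ∂μ) - ∏ i, ∫ x, f i x ∂μ) ∂ν =
      gS (lam ν n) f μ := by
  simp_rw [Phi_expand f hf hb μ]
  rw [integral_finsetSum]
  · unfold gS
    apply Finset.sum_congr rfl
    intro J _
    rw [integral_mul_const]
    rfl
  · intro J _
    rcases Nat.lt_or_ge J.card 2 with h | h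
    · rw [AJ_eq_of_card_le_one f μ J (by omega), sub_self]
      simp
    · apply Integrable.mul_const
      refine hν.mono' (by fun_prop) ?_
      filter_upwards [hsupp] with u hu
      rw [Real.norm_eq_abs, abs_of_nonneg (mul_nonneg (pow_nonneg hu.1 _)
        (pow_nonneg (by linarith [hu.2]) _))]
      calc u ^ J.card * (1 - u) ^ Jᶜ.card ≤ u ^ 2 * 1 := by
            apply mul_le_mul
            · exact pow_le_pow_of_le_one hu.1 hu.2 h
            · exact pow_le_one₀ (by linarith [hu.2]) (by linarith [hu.1])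
            · exact pow_nonneg (by linarith [hu.2]) _
            · exact pow_nonneg hu.1 _
        _ = u ^ 2 := mul_one _

lemma integral_afterEvent (f : C(I, ℝ)) (μ : Measure I) [IsProbabilityMeasure μ] {u : ℝ}
    (h0 : 0 ≤ u) (h1 : u ≤ 1) (x : I) :
    ∫ y, f y ∂(afterEvent μ u x) = (1 - u) * (∫ y, f y ∂μ) + u * f x := by
  have hi : ∀ (m : Measure I) [IsFiniteMeasure m], Integrable (fun y => f y) m := by
    intro m _
    exact (BoundedContinuousFunction.mkOfCompact f).integrable m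
  unfold afterEvent
  rw [integral_add_measure, integral_smul_measure, integral_smul_measure, integral_dirac,
    ENNReal.toReal_ofReal (by linarith), ENNReal.toReal_ofReal h0, smul_eq_mul, smul_eq_mul]
  · exact (hi μ).smul_measure ENNReal.ofReal_ne_top
  · exact (hi _).smul_measure ENNReal.ofReal_ne_top

lemma generator_monomial {n : ℕ} (f : Fin n → C(I, ℝ)) (hb : ∀ i x, |f i x| ≤ 1)
    (μ : Measure I) [IsProbabilityMeasure μ] (Λ : Measure ℝ)
    (hν : Integrable (fun u => u ^ 2) (nu Λ)) (hsupp : ∀ᵐ u ∂(nu Λ), 0 ≤ u ∧ u ≤ 1) :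
    generator Λ (monomial f) μ = gS (lam (nu Λ) n) (fun i => f i) μ := by
  rw [← integral_Phi (fun i => f i) (fun i => (f i).continuous.measurable) hb μ (nu Λ) hν hsupp]
  unfold generator
  apply integral_congr_ae
  filter_upwards [hsupp] with u hu
  have h1 : ∀ x, monomial f (afterEvent μ u x) =
      ∏ i, ((1 - u) * (∫ y, f i y ∂μ) + u * f i x) := by
    intro x
    unfold monomial
    apply Finset.prod_congr rfl
    intro i _
    exact integral_afterEvent (f i) μ hu.1 hu.2 x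
  simp_rw [h1]
  rw [integral_sub]
  · simp [monomial]
  · have hc : Continuous fun x => ∏ i, ((1 - u) * (∫ y, f i y ∂μ) + u * f i x) := by
      fun_prop
    exact (BoundedContinuousFunction.mkOfCompact ⟨_, hc⟩).integrable μ
  · exact integrable_const _

/-- Dominated convergence for the integrals of the test functions. -/
lemma tendsto_int {g : ℕ → I → ℝ} {h : I → ℝ} (hg : ∀ k, Measurable (g k))
    (hb : ∀ k x, |g k x| ≤ 1) (hl : ∀ x, Tendsto (fun k => g k x) atTop (𝓝 (h x)))
    (μ : Measure I) [IsFiniteMeasure μ] :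
    Tendsto (fun k => ∫ x, g k x ∂μ) atTop (𝓝 (∫ x, h x ∂μ)) := by
  apply tendsto_integral_of_dominated_convergence (fun _ => 1)
  · exact fun k => (hg k).aestronglyMeasurable
  · exact integrable_const _
  · intro k
    filter_upwards with x
    rw [Real.norm_eq_abs]
    exact hb k x
  · filter_upwards with x
    exact hl x

lemma abs_int_le {g : I → ℝ} (hb : ∀ x, |g x| ≤ 1) (μ : Measure I) [IsProbabilityMeasure μ] :
    |∫ x, g x ∂μ| ≤ 1 := by
  rw [← Real.norm_eq_abs]
  have := norm_integral_le_of_norm_le_const (μ := μ) (f := g) (C := 1)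
    (by filter_upwards with x; rw [Real.norm_eq_abs]; exact hb x)
  simpa using this

lemma abs_prod_le {n : ℕ} {f : Fin n → I → ℝ} (hb : ∀ i x, |f i x| ≤ 1) (J : Finset (Fin n))
    (x : I) : |∏ i ∈ J, f i x| ≤ 1 := by
  rw [Finset.abs_prod]
  exact Finset.prod_le_one (fun i _ => abs_nonneg _) (fun i _ => hb i x)

lemma abs_prod_int_le {n : ℕ} {f : Fin n → I → ℝ} (hb : ∀ i x, |f i x| ≤ 1) (J : Finset (Fin n))
    (μ : Measure I) [IsProbabilityMeasure μ] : |∏ i ∈ J, ∫ x, f i x ∂μ| ≤ 1 := by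
  rw [Finset.abs_prod]
  exact Finset.prod_le_one (fun i _ => abs_nonneg _) (fun i _ => abs_int_le (hb i) μ)

lemma abs_Pi_le {n : ℕ} {f : Fin n → I → ℝ} (hb : ∀ i x, |f i x| ≤ 1)
    (μ : Measure I) [IsProbabilityMeasure μ] : |Pi f μ| ≤ 1 := abs_prod_int_le hb _ μ

lemma abs_AJ_le {n : ℕ} {f : Fin n → I → ℝ} (hb : ∀ i x, |f i x| ≤ 1)
    (μ : Measure I) [IsProbabilityMeasure μ] (J : Finset (Fin n)) : |AJ f μ J| ≤ 1 := by
  unfold AJ
  rw [abs_mul]
  exact mul_le_one₀ (abs_int_le (fun x => abs_prod_le hb J x) μ) (abs_nonneg _)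
    (abs_prod_int_le hb _ μ)

lemma abs_gS_le {n : ℕ} (c : Finset (Fin n) → ℝ) {f : Fin n → I → ℝ} (hb : ∀ i x, |f i x| ≤ 1)
    (μ : Measure I) [IsProbabilityMeasure μ] : |gS c f μ| ≤ ∑ J : Finset (Fin n), |c J| * 2 := by
  unfold gS
  refine (Finset.abs_sum_le_sum_abs _ _).trans (Finset.sum_le_sum fun J _ => ?_)
  rw [abs_mul]
  apply mul_le_mul_of_nonneg_left _ (abs_nonneg _)
  have h1 := abs_AJ_le hb μ J
  have h2 := abs_Pi_le hb μ
  exact (abs_sub _ _).trans (by linarith)

section limit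

variable {n : ℕ} {g : ℕ → Fin n → I → ℝ} {f : Fin n → I → ℝ}

lemma tendsto_prod_int (hg : ∀ k i, Measurable (g k i)) (hb : ∀ k i x, |g k i x| ≤ 1)
    (hl : ∀ i x, Tendsto (fun k => g k i x) atTop (𝓝 (f i x))) (μ : Measure I) [IsFiniteMeasure μ]
    (J : Finset (Fin n)) :
    Tendsto (fun k => ∏ i ∈ J, ∫ x, g k i x ∂μ) atTop (𝓝 (∏ i ∈ J, ∫ x, f i x ∂μ)) :=
  tendsto_finsetProd _ fun i _ => tendsto_int (fun k => hg k i) (fun k => hb k i) (hl i) μ

lemma tendsto_Pi (hg : ∀ k i, Measurable (g k i)) (hb : ∀ k i x, |g k i x| ≤ 1)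
    (hl : ∀ i x, Tendsto (fun k => g k i x) atTop (𝓝 (f i x))) (μ : Measure I) [IsFiniteMeasure μ] :
    Tendsto (fun k => Pi (g k) μ) atTop (𝓝 (Pi f μ)) := tendsto_prod_int hg hb hl μ _

lemma tendsto_AJ (hg : ∀ k i, Measurable (g k i)) (hb : ∀ k i x, |g k i x| ≤ 1)
    (hl : ∀ i x, Tendsto (fun k => g k i x) atTop (𝓝 (f i x))) (μ : Measure I) [IsFiniteMeasure μ]
    (J : Finset (Fin n)) :
    Tendsto (fun k => AJ (g k) μ J) atTop (𝓝 (AJ f μ J)) := by
  unfold AJ
  apply Tendsto.mul _ (tendsto_prod_int hg hb hl μ _)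
  apply tendsto_int
  · exact fun k => Finset.measurable_prod J fun i _ => hg k i
  · exact fun k x => abs_prod_le (hb k) J x
  · exact fun x => tendsto_finsetProd _ fun i _ => hl i x

lemma tendsto_gS (c : Finset (Fin n) → ℝ) (hg : ∀ k i, Measurable (g k i))
    (hb : ∀ k i x, |g k i x| ≤ 1)
    (hl : ∀ i x, Tendsto (fun k => g k i x) atTop (𝓝 (f i x))) (μ : Measure I) [IsFiniteMeasure μ] :
    Tendsto (fun k => gS c (g k) μ) atTop (𝓝 (gS c f μ)) := by
  unfold gS
  exact tendsto_finsetSum _ fun J _ =>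
    ((tendsto_AJ hg hb hl μ J).sub (tendsto_Pi hg hb hl μ)).const_mul _

end limit

section process

variable {Λ : Measure ℝ} {Ω : Type*} {mΩ : MeasurableSpace Ω} {P : Measure Ω}
  {𝓕 : Filtration ℝ≥0 mΩ} {ρ : ℝ≥0 → Ω → ProbabilityMeasure I}

lemma meas_omega (h : IsFlemingViot Λ P 𝓕 ρ) (t : ℝ≥0) (f : C(I, ℝ)) :
    Measurable fun ω => ∫ x, f x ∂(ρ t ω : Measure I) :=
  (h.adapted t f).mono (𝓕.le t) le_rfl

lemma meas_time (h : IsFlemingViot Λ P 𝓕 ρ) (ω : Ω) (f : C(I, ℝ)) :
    Measurable fun s : ℝ≥0 => ∫ x, f x ∂(ρ s ω : Measure I) := by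
  apply measurable_of_rightCont
  intro t
  have h1 := h.rightCont ω t
  unfold ContinuousWithinAt at h1 ⊢
  rw [ProbabilityMeasure.tendsto_iff_forall_integral_tendsto] at h1
  exact h1 (BoundedContinuousFunction.mkOfCompact f)

lemma meas_omega_lim (h : IsFlemingViot Λ P 𝓕 ρ) (t : ℝ≥0) {g : ℕ → C(I, ℝ)} {f : I → ℝ}
    (hb : ∀ k x, |g k x| ≤ 1) (hl : ∀ x, Tendsto (fun k => g k x) atTop (𝓝 (f x))) :
    Measurable fun ω => ∫ x, f x ∂(ρ t ω : Measure I) :=
  measurable_of_tendsto_metrizable (fun k => meas_omega h t (g k))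
    (tendsto_pi_nhds.2 fun _ => tendsto_int (fun k => (g k).continuous.measurable) hb hl _)

lemma meas_time_lim (h : IsFlemingViot Λ P 𝓕 ρ) (ω : Ω) {g : ℕ → C(I, ℝ)} {f : I → ℝ}
    (hb : ∀ k x, |g k x| ≤ 1) (hl : ∀ x, Tendsto (fun k => g k x) atTop (𝓝 (f x))) :
    Measurable fun s : ℝ≥0 => ∫ x, f x ∂(ρ s ω : Measure I) :=
  measurable_of_tendsto_metrizable (fun k => meas_time h ω (g k))
    (tendsto_pi_nhds.2 fun _ => tendsto_int (fun k => (g k).continuous.measurable) hb hl _)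

variable {n : ℕ} {g : ℕ → Fin n → C(I, ℝ)} {f : Fin n → I → ℝ}

lemma tendsto_prodC (hl : ∀ i x, Tendsto (fun k => g k i x) atTop (𝓝 (f i x)))
    (J : Finset (Fin n)) (x : I) :
    Tendsto (fun k => (∏ i ∈ J, g k i) x) atTop (𝓝 (∏ i ∈ J, f i x)) := by
  simp only [ContinuousMap.coe_prod, Finset.prod_apply]
  exact tendsto_finsetProd _ fun i _ => hl i x

lemma abs_prodC (hb : ∀ k i x, |g k i x| ≤ 1) (J : Finset (Fin n)) (k : ℕ) (x : I) :
    |(∏ i ∈ J, g k i) x| ≤ 1 := by
  simp only [ContinuousMap.coe_prod, Finset.prod_apply]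
  exact abs_prod_le (hb k) J x

lemma meas_Pi_omega (h : IsFlemingViot Λ P 𝓕 ρ) (t : ℝ≥0) (hb : ∀ k i x, |g k i x| ≤ 1)
    (hl : ∀ i x, Tendsto (fun k => g k i x) atTop (𝓝 (f i x))) :
    Measurable fun ω => Pi f (ρ t ω : Measure I) :=
  Finset.measurable_prod _ fun i _ => meas_omega_lim h t (fun k => hb k i) (hl i)

lemma meas_gS_time (h : IsFlemingViot Λ P 𝓕 ρ) (ω : Ω) (c : Finset (Fin n) → ℝ)
    (hb : ∀ k i x, |g k i x| ≤ 1)
    (hl : ∀ i x, Tendsto (fun k => g k i x) atTop (𝓝 (f i x))) :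
    Measurable fun s : ℝ≥0 => gS c f (ρ s ω : Measure I) := by
  unfold gS
  apply Finset.measurable_sum
  intro J _
  apply Measurable.const_mul
  apply Measurable.sub
  · unfold AJ
    apply Measurable.mul
    · exact meas_time_lim h ω (fun k x => abs_prodC hb J k x) (fun x => tendsto_prodC hl J x)
    · exact Finset.measurable_prod _ fun i _ => meas_time_lim h ω (fun k => hb k i) (hl i)
  · exact Finset.measurable_prod _ fun i _ => meas_time_lim h ω (fun k => hb k i) (hl i)

lemma abs_lim_le (hb : ∀ k i x, |g k i x| ≤ 1)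
    (hl : ∀ i x, Tendsto (fun k => g k i x) atTop (𝓝 (f i x))) (i : Fin n) (x : I) :
    |f i x| ≤ 1 :=
  le_of_tendsto (hl i x).abs (Eventually.of_forall fun k => hb k i x)

lemma intervalIntegrable_gS (h : IsFlemingViot Λ P 𝓕 ρ) (ω : Ω) (c : Finset (Fin n) → ℝ)
    (hb : ∀ k i x, |g k i x| ≤ 1)
    (hl : ∀ i x, Tendsto (fun k => g k i x) atTop (𝓝 (f i x))) (t : ℝ) :
    IntervalIntegrable (fun s : ℝ => gS c f (ρ s.toNNReal ω : Measure I)) volume 0 t := by
  rw [intervalIntegrable_iff]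
  have : IsFiniteMeasure (volume.restrict (Set.uIoc (0 : ℝ) t)) := by
    rw [isFiniteMeasure_restrict, Real.volume_uIoc]
    exact ENNReal.ofReal_ne_top
  refine Integrable.of_bound (C := ∑ J : Finset (Fin n), |c J| * 2) ?_ ?_
  · exact ((meas_gS_time h ω c hb hl).comp measurable_real_toNNReal).aestronglyMeasurable
  · filter_upwards with s
    rw [Real.norm_eq_abs]
    exact abs_gS_le c (abs_lim_le hb hl) _

/-- The moment equation, for products of limits of continuous functions. -/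
lemma moment_eq [IsProbabilityMeasure P] (h : IsFlemingViot Λ P 𝓕 ρ)
    (hν : Integrable (fun u => u ^ 2) (nu Λ)) (hsupp : ∀ᵐ u ∂(nu Λ), 0 ≤ u ∧ u ≤ 1)
    (hb : ∀ k i x, |g k i x| ≤ 1)
    (hl : ∀ i x, Tendsto (fun k => g k i x) atTop (𝓝 (f i x))) (t : ℝ≥0) :
    Integrable (fun ω => Pi f (ρ t ω : Measure I) -
      ∫ s in (0 : ℝ)..t, gS (lam (nu Λ) n) f (ρ s.toNNReal ω : Measure I)) P ∧
    ∫ ω, (Pi f (ρ t ω : Measure I) -
      ∫ s in (0 : ℝ)..t, gS (lam (nu Λ) n) f (ρ s.toNNReal ω : Measure I)) ∂P =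
    ∫ ω, Pi f (ρ 0 ω : Measure I) ∂P := by
  set c := lam (nu Λ) n with hc
  set C := ∑ J : Finset (Fin n), |c J| * 2 with hC
  have hgm : ∀ k i, Measurable (g k i) := fun k i => (g k i).continuous.measurable
  -- the martingale for the continuous approximations
  have hM : ∀ k, Integrable (fun ω => Pi (fun i => g k i) (ρ t ω : Measure I) -
      ∫ s in (0 : ℝ)..t, gS c (fun i => g k i) (ρ s.toNNReal ω : Measure I)) P ∧
      ∫ ω, (Pi (fun i => g k i) (ρ t ω : Measure I) -
      ∫ s in (0 : ℝ)..t, gS c (fun i => g k i) (ρ s.toNNReal ω : Measure I)) ∂P =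
      ∫ ω, Pi (fun i => g k i) (ρ 0 ω : Measure I) ∂P := by
    intro k
    have hm := h.martingale n (g k)
    have he : ∀ (t : ℝ≥0) ω, monomial (g k) (ρ t ω : Measure I) -
        ∫ s in (0 : ℝ)..t, generator Λ (monomial (g k)) (ρ s.toNNReal ω : Measure I) =
        Pi (fun i => g k i) (ρ t ω : Measure I) -
        ∫ s in (0 : ℝ)..t, gS c (fun i => g k i) (ρ s.toNNReal ω : Measure I) := by
      intro t ω
      congr 1
      apply intervalIntegral.integral_congr
      intro s _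
      exact generator_monomial (g k) (hb k) _ Λ hν hsupp
    have h1 := hm.integrable t
    have h2 := hm.setIntegral_eq (zero_le : 0 ≤ t) MeasurableSet.univ
    simp only [he, setIntegral_univ] at h1 h2
    refine ⟨h1, ?_⟩
    rw [← h2]
    simp
  have hbd : ∀ (f : Fin n → I → ℝ), (∀ i x, |f i x| ≤ 1) → ∀ ω,
      ‖Pi f (ρ t ω : Measure I) - ∫ s in (0 : ℝ)..t, gS c f (ρ s.toNNReal ω : Measure I)‖
        ≤ 1 + C * t := by
    intro f hf ω
    rw [Real.norm_eq_abs]
    refine (abs_sub _ _).trans (add_le_add (abs_Pi_le hf _) ?_)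
    have := intervalIntegral.norm_integral_le_of_norm_le_const (a := (0 : ℝ)) (b := t) (C := C)
      (f := fun s => gS c f (ρ s.toNNReal ω : Measure I)) (fun s _ => by
        rw [Real.norm_eq_abs]; exact abs_gS_le c hf _)
    rw [Real.norm_eq_abs, sub_zero, abs_of_nonneg t.coe_nonneg] at this
    exact this
  have hlim : ∀ ω, Tendsto (fun k => Pi (fun i => g k i) (ρ t ω : Measure I) -
      ∫ s in (0 : ℝ)..t, gS c (fun i => g k i) (ρ s.toNNReal ω : Measure I)) atTop
      (𝓝 (Pi f (ρ t ω : Measure I) - ∫ s in (0 : ℝ)..t, gS c f (ρ s.toNNReal ω : Measure I))) := by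
    intro ω
    apply Tendsto.sub
    · exact tendsto_Pi (g := fun k i => g k i) hgm hb hl _
    · apply intervalIntegral.tendsto_integral_filter_of_dominated_convergence (fun _ => C)
      · filter_upwards with k
        have := (intervalIntegrable_gS h ω c (g := fun _ => g k) (f := fun i => g k i)
          (fun _ => hb k) (fun i x => tendsto_const_nhds) t)
        rw [intervalIntegrable_iff] at this
        exact this.aestronglyMeasurable
      · filter_upwards with k
        filter_upwards with s _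
        rw [Real.norm_eq_abs]
        exact abs_gS_le c (hb k) _
      · exact intervalIntegrable_const
      · filter_upwards with s _
        exact tendsto_gS c (g := fun k i => g k i) hgm hb hl _
  constructor
  · refine Integrable.of_bound (C := 1 + C * t) ?_ ?_
    · exact aestronglyMeasurable_of_tendsto_ae atTop (fun k => (hM k).1.aestronglyMeasurable)
        (Eventually.of_forall hlim)
    · exact Eventually.of_forall (hbd f (abs_lim_le hb hl))
  · have h1 := tendsto_integral_of_dominated_convergence (μ := P) (fun _ => 1 + C * (t : ℝ))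
      (fun k => (hM k).1.aestronglyMeasurable) (integrable_const _)
      (fun k => Eventually.of_forall (hbd (fun i => g k i) (hb k))) (Eventually.of_forall hlim)
    have h2 : Tendsto (fun k => ∫ ω, Pi (fun i => g k i) (ρ 0 ω : Measure I) ∂P) atTop
        (𝓝 (∫ ω, Pi f (ρ 0 ω : Measure I) ∂P)) := by
      apply tendsto_integral_of_dominated_convergence (μ := P) (fun _ => (1 : ℝ))
      · intro k
        exact (meas_Pi_omega h 0 (g := fun _ => g k) (f := fun i => g k i)
          (fun _ => hb k) (fun i x => tendsto_const_nhds)).aestronglyMeasurable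
      · exact integrable_const _
      · intro k
        filter_upwards with ω
        rw [Real.norm_eq_abs]
        exact abs_Pi_le (hb k) _
      · filter_upwards with ω
        exact tendsto_Pi (g := fun k i => g k i) hgm hb hl _
    simp_rw [fun k => (hM k).2] at h1
    exact tendsto_nhds_unique h1 h2

end process

end Pool.Agent.LambdaFV
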