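import Pool.Agent.LambdaFV.Cells
import Pool.Agent.LambdaFV.Example

/-!
# The functional `S` does not vanish along the `Λ₀`-Fleming-Viot process
-/

open MeasureTheory Filter Topology Finset
open scoped NNReal ENNReal unitInterval

namespace Pool.Agent.LambdaFV

lemma brk_abs_le (s : ℕ) {x : ℝ} (hx0 : 0 ≤ x) (hx1 : x ≤ 1) {u : ℝ} (h0 : 0 < u) (h1 : u < 1) :
    |brk u (s + 1) x| ≤ ((∑ i ∈ range s, ((s + 1).choose i : ℝ)) + ((s : ℝ) + 2) ^ 2) * u ^ 2 := by
  have h2 : 0 ≤ 1 - u := by linarith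
  rw [brk_eq, add_mul]
  refine (abs_sub _ _).trans (add_le_add ?_ ?_)
  · refine (Finset.abs_sum_le_sum_abs _ _).trans ?_
    rw [Finset.sum_mul]
    apply Finset.sum_le_sum
    intro i hi
    rw [Finset.mem_range] at hi
    rw [abs_of_nonneg (by positivity)]
    calc ((s + 1).choose i : ℝ) * u ^ (s + 1 - i) * (1 - u) ^ (i + 2) * x ^ (i + 1)
        ≤ ((s + 1).choose i : ℝ) * u ^ 2 * 1 * 1 := by
          have e1 : u ^ (s + 1 - i) ≤ u ^ 2 := pow_le_pow_of_le_one h0.le h1.le (by omega)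
          have e2 : (1 - u) ^ (i + 2) ≤ 1 := pow_le_one₀ h2 (by linarith)
          have e3 : x ^ (i + 1) ≤ 1 := pow_le_one₀ hx0 hx1
          exact mul_le_mul (mul_le_mul (mul_le_mul_of_nonneg_left e1 (by positivity)) e2
            (by positivity) (by positivity)) e3 (by positivity) (by positivity)
      _ = _ := by ring
  · rw [abs_of_nonneg (mul_nonneg (B_nonneg h0.le h1 s) (by positivity))]
    calc B u s * x ^ (s + 1) ≤ ((s + 2) * u) ^ 2 * 1 := by
          apply mul_le_mul (B_le h0.le h1 s) (pow_le_one₀ hx0 hx1) (by positivity) (by positivity)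
      _ = _ := by ring

lemma integrable_brk (s : ℕ) {x : ℝ} (hx0 : 0 ≤ x) (hx1 : x ≤ 1) :
    Integrable (fun u => brk u (s + 1) x) nu0 :=
  integrable_nu0 fun _ h0 h1 => brk_abs_le s hx0 hx1 h0 h1

lemma x_lower {η : ℝ} (hη : 0 < η) {T : ℕ} (hT : ∀ s ≥ T, af η s = 0) {x : ℝ} (hx0 : 0 ≤ x)
    (hx1 : x ≤ 1) :
    -(1312 * η) * ∑ s ∈ range T, 1 * ((s : ℝ) + 1) * x ^ (s + 1) ≤
      ∑ s ∈ range T, af η s * ((s : ℝ) + 1) * ∫ u, brk u (s + 1) x ∂nu0 := by
  have hint : Integrable (fun u => ∑ s ∈ range T, af η s * ((s : ℝ) + 1) * brk u (s + 1) x) nu0 :=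
    integrable_finsetSum _ fun s _ => (integrable_brk s hx0 hx1).const_mul _
  have h1 : ∑ s ∈ range T, af η s * ((s : ℝ) + 1) * ∫ u, brk u (s + 1) x ∂nu0 =
      ∫ u, ∑ s ∈ range T, af η s * ((s : ℝ) + 1) * brk u (s + 1) x ∂nu0 := by
    rw [integral_finsetSum _ fun s _ => (integrable_brk s hx0 hx1).const_mul _]
    apply Finset.sum_congr rfl
    intro s _
    rw [integral_const_mul]
  rw [h1, integral_nu0 hint]
  have hS := fun s => summable_small_Lop s (af_nonneg η) (af_le_one hη.le)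
  have hB := fun s => summable_big_Lop s (af_nonneg η) (af_le_one hη.le)
  have h2 : ∑' n, ws n * ∑ s ∈ range T, af η s * ((s : ℝ) + 1) * brk (us n) (s + 1) x =
      ∑ s ∈ range T, ((s : ℝ) + 1) * x ^ (s + 1) * ∑' n, ws n * Lop (us n) (af η) s := by
    simp_rw [fun n => sum_brk_eq (u := us n) hT x, Finset.mul_sum]
    have h3 : ∀ s ∈ range T, Summable fun n => ws n * (((s : ℝ) + 1) * x ^ (s + 1) *
        Lop (us n) (af η) s) := by
      intro s _
      have := (hS s).mul_left (((s : ℝ) + 1) * x ^ (s + 1))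
      refine this.congr fun n => ?_
      ring
    rw [Summable.tsum_finsetSum h3]
    apply Finset.sum_congr rfl
    intro s _
    rw [← tsum_mul_left]
    apply tsum_congr
    intro n
    ring
  have h2' : ∑' n, wb n * ∑ s ∈ range T, af η s * ((s : ℝ) + 1) * brk (ub n) (s + 1) x =
      ∑ s ∈ range T, ((s : ℝ) + 1) * x ^ (s + 1) * ∑' n, wb n * Lop (ub n) (af η) s := by
    simp_rw [fun n => sum_brk_eq (u := ub n) hT x, Finset.mul_sum]
    have h3 : ∀ s ∈ range T, Summable fun n => wb n * (((s : ℝ) + 1) * x ^ (s + 1) *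
        Lop (ub n) (af η) s) := by
      intro s _
      have := (hB s).mul_left (((s : ℝ) + 1) * x ^ (s + 1))
      refine this.congr fun n => ?_
      ring
    rw [Summable.tsum_finsetSum h3]
    apply Finset.sum_congr rfl
    intro s _
    rw [← tsum_mul_left]
    apply tsum_congr
    intro n
    ring
  rw [h2, h2', ← Finset.sum_add_distrib, Finset.mul_sum]
  apply Finset.sum_le_sum
  intro s _
  rw [← mul_add]
  have h4 := total_lower hη s
  have h5 := mul_le_mul_of_nonneg_left h4 (by positivity : 0 ≤ ((s : ℝ) + 1) * x ^ (s + 1))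
  linarith

lemma gS_tf (M m : ℕ) {i j k : Fin (M + 1)} (hij : i ≠ j) (hik : i ≠ k) (hjk : j ≠ k)
    (μ : Measure I) [IsProbabilityMeasure μ] :
    gS (lam nu0 (m + 2)) (tf M m i j k) μ =
      mass M μ j * mass M μ k * ∫ u, brk u m (mass M μ i) ∂nu0 := by
  rw [← integral_Phi (tf M m i j k) (tf_measurable M m i j k) (tf_abs M m i j k) μ nu0
    integrable_sq (by filter_upwards [ae_nu0_mem] with u hu; exact ⟨hu.1.le, hu.2.le⟩)]
  simp_rw [Phi_tf M m hij hik hjk μ]
  rw [integral_const_mul]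

lemma generator_lower {η : ℝ} (hη : 0 < η) {T : ℕ} (hT : ∀ s ≥ T, af η s = 0) (M : ℕ)
    (μ : Measure I) [IsProbabilityMeasure μ] :
    -(1312 * η) ≤ ∑ i : Fin (M + 1), ∑ j ∈ univ.erase i, ∑ k ∈ (univ.erase i).erase j,
      ∑ s ∈ range T, af η s * ((s : ℝ) + 1) * gS (lam nu0 (s + 1 + 2)) (tf M (s + 1) i j k) μ := by
  have hr := mass_simplex M μ
  have h1 : ∑ i : Fin (M + 1), ∑ j ∈ univ.erase i, ∑ k ∈ (univ.erase i).erase j,
      ∑ s ∈ range T, af η s * ((s : ℝ) + 1) * gS (lam nu0 (s + 1 + 2)) (tf M (s + 1) i j k) μ =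
      ∑ i, W (mass M μ) i * ∑ s ∈ range T, af η s * ((s : ℝ) + 1) *
        ∫ u, brk u (s + 1) (mass M μ i) ∂nu0 := by
    apply Finset.sum_congr rfl
    intro i _
    unfold W
    rw [Finset.sum_mul]
    apply Finset.sum_congr rfl
    intro j hj
    rw [Finset.sum_mul]
    apply Finset.sum_congr rfl
    intro k hk
    rw [Finset.mul_sum]
    apply Finset.sum_congr rfl
    intro s _
    rw [Finset.mem_erase] at hj hk
    rw [Finset.mem_erase] at hk
    rw [gS_tf M (s + 1) hj.1.symm hk.2.1.symm hk.1.symm]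
    ring
  rw [h1]
  have h2 : -(1312 * η) ≤ -(1312 * η) * Fb (fun _ => 1) T (mass M μ) := by
    have h3 : Fb (fun _ => 1) T (mass M μ) ≤ 1 :=
      (Fb_le_S hr (fun _ => by norm_num) (fun _ => le_rfl) T).trans (S_le_one hr)
    nlinarith
  refine h2.trans ?_
  unfold Fb
  rw [Finset.mul_sum]
  apply Finset.sum_le_sum
  intro i _
  have h3 := mul_le_mul_of_nonneg_left (x_lower hη hT (hr.nonneg i) (hr.le_one i)) (W_nonneg hr i)
  linarith

lemma Fb_eq (b : ℕ → ℝ) (T M : ℕ) (μ : Measure I) :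
    Fb b T (mass M μ) = ∑ i : Fin (M + 1), ∑ j ∈ univ.erase i, ∑ k ∈ (univ.erase i).erase j,
      ∑ s ∈ range T, b s * ((s : ℝ) + 1) * Pi (tf M (s + 1) i j k) μ := by
  unfold Fb W
  apply Finset.sum_congr rfl
  intro i _
  rw [Finset.sum_mul]
  apply Finset.sum_congr rfl
  intro j hj
  rw [Finset.sum_mul]
  apply Finset.sum_congr rfl
  intro k hk
  rw [Finset.mul_sum]
  apply Finset.sum_congr rfl
  intro s _
  rw [Pi_tf]
  ring

section process

variable {Ω : Type*} {mΩ : MeasurableSpace Ω} {P : Measure Ω}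
  {𝓕 : Filtration ℝ≥0 mΩ} {ρ : ℝ≥0 → Ω → ProbabilityMeasure I}

lemma measurable_mass (h : IsFlemingViot Lambda0 P 𝓕 ρ) (M : ℕ) (t : ℝ≥0) (l : Fin (M + 1)) :
    Measurable fun ω => mass M (ρ t ω : Measure I) l :=
  meas_omega_lim h t (fun k => approx_abs M k l) (approx_tendsto M l)

lemma measurable_S (h : IsFlemingViot Lambda0 P 𝓕 ρ) (M : ℕ) (t : ℝ≥0) :
    Measurable fun ω => S (mass M (ρ t ω : Measure I)) := by
  unfold S W
  have := measurable_mass h M t
  fun_prop

/-- The set of indices. -/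
noncomputable def Q (M T : ℕ) :
    Finset (Σ _ : Fin (M + 1), Σ _ : Fin (M + 1), Σ _ : Fin (M + 1), ℕ) :=
  univ.sigma fun i => (univ.erase i).sigma fun j => ((univ.erase i).erase j).sigma fun _ => range T

lemma sum_Q (M T : ℕ) (F : Fin (M + 1) → Fin (M + 1) → Fin (M + 1) → ℕ → ℝ) :
    ∑ i : Fin (M + 1), ∑ j ∈ univ.erase i, ∑ k ∈ (univ.erase i).erase j,
      ∑ s ∈ range T, F i j k s = ∑ q ∈ Q M T, F q.1 q.2.1 q.2.2.1 q.2.2.2 := by
  unfold Q
  simp only [Finset.sum_sigma]

lemma expect_lower_aux [IsProbabilityMeasure P] (h : IsFlemingViot Lambda0 P 𝓕 ρ) (M : ℕ) (t : ℝ≥0)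
    {η : ℝ} (hη : 0 < η) :
    1 / 2 * (1 - 3 * (1 / ((M : ℝ) + 1))) ≤
      ∫ ω, S (mass M (ρ t ω : Measure I)) ∂P + 1312 * η * t := by
  obtain ⟨T0, hT0⟩ := af_support hη
  obtain ⟨T, hT1, hT⟩ : ∃ T, 1 ≤ T ∧ ∀ s ≥ T, af η s = 0 :=
    ⟨max T0 1, le_max_right _ _, fun s hs => hT0 s (le_trans (le_max_left _ _) hs)⟩
  have hν : Integrable (fun u : ℝ => u ^ 2) (nu Lambda0) := by
    rw [nu_Lambda0]; exact integrable_sq
  have hsupp : ∀ᵐ u ∂(nu Lambda0), 0 ≤ u ∧ u ≤ 1 := by
    rw [nu_Lambda0]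
    filter_upwards [ae_nu0_mem] with u hu
    exact ⟨hu.1.le, hu.2.le⟩
  -- the moment equations
  have hM : ∀ (i j k : Fin (M + 1)) (s : ℕ),
      Integrable (fun ω => Pi (tf M (s + 1) i j k) (ρ t ω : Measure I) -
      ∫ r in (0 : ℝ)..t, gS (lam nu0 (s + 1 + 2)) (tf M (s + 1) i j k)
        (ρ r.toNNReal ω : Measure I)) P ∧
      ∫ ω, (Pi (tf M (s + 1) i j k) (ρ t ω : Measure I) -
      ∫ r in (0 : ℝ)..t, gS (lam nu0 (s + 1 + 2)) (tf M (s + 1) i j k)
        (ρ r.toNNReal ω : Measure I)) ∂P =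
      ∫ ω, Pi (tf M (s + 1) i j k) (ρ 0 ω : Measure I) ∂P := by
    intro i j k s
    have := moment_eq h hν hsupp (g := tfa M (s + 1) i j k) (f := tf M (s + 1) i j k)
      (tfa_abs M (s + 1) i j k) (tfa_tendsto M (s + 1) i j k) t
    rw [nu_Lambda0] at this
    exact this
  have hI : ∀ (i j k : Fin (M + 1)) (s : ℕ) (ω : Ω), IntervalIntegrable
      (fun r : ℝ => gS (lam nu0 (s + 1 + 2)) (tf M (s + 1) i j k)
        (ρ r.toNNReal ω : Measure I)) volume 0 t := fun i j k s ω =>
    intervalIntegrable_gS h ω _ (tfa_abs M (s + 1) i j k) (tfa_tendsto M (s + 1) i j k) t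
  have hP0 : ∀ (i j k : Fin (M + 1)) (s : ℕ),
      Integrable (fun ω => Pi (tf M (s + 1) i j k) (ρ 0 ω : Measure I)) P := by
    intro i j k s
    refine Integrable.of_bound (C := 1) (meas_Pi_omega h 0 (tfa_abs M (s + 1) i j k)
      (tfa_tendsto M (s + 1) i j k)).aestronglyMeasurable (Eventually.of_forall fun ω => ?_)
    rw [Real.norm_eq_abs]
    exact abs_Pi_le (tf_abs M (s + 1) i j k) _
  set X : Ω → ℝ := fun ω => ∑ q ∈ Q M T, af η q.2.2.2 * ((q.2.2.2 : ℝ) + 1) *
    (Pi (tf M (q.2.2.2 + 1) q.1 q.2.1 q.2.2.1) (ρ t ω : Measure I) -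
      ∫ r in (0 : ℝ)..t, gS (lam nu0 (q.2.2.2 + 1 + 2)) (tf M (q.2.2.2 + 1) q.1 q.2.1 q.2.2.1)
        (ρ r.toNNReal ω : Measure I)) with hX
  have hXint : Integrable X P :=
    integrable_finsetSum _ fun q _ => (hM q.1 q.2.1 q.2.2.1 q.2.2.2).1.const_mul _
  have hX1 : ∫ ω, X ω ∂P = ∫ ω, Fb (af η) T (mass M (ρ 0 ω : Measure I)) ∂P := by
    simp_rw [Fb_eq, sum_Q M T]
    rw [hX, integral_finsetSum _ fun q _ => (hM q.1 q.2.1 q.2.2.1 q.2.2.2).1.const_mul _,
      integral_finsetSum _ fun q _ => (hP0 q.1 q.2.1 q.2.2.1 q.2.2.2).const_mul _]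
    apply Finset.sum_congr rfl
    intro q _
    rw [integral_const_mul, integral_const_mul, (hM q.1 q.2.1 q.2.2.1 q.2.2.2).2]
  have hX2 : 1 / 2 * (1 - 3 * (1 / ((M : ℝ) + 1))) ≤ ∫ ω, X ω ∂P := by
    rw [hX1]
    have hinit : ∀ᵐ ω ∂P, Fb (af η) T (mass M (ρ 0 ω : Measure I)) =
        Fb (af η) T (mass M (volume : Measure I)) := by
      filter_upwards [h.init] with ω hω
      rw [hω]
    rw [integral_congr_ae hinit, integral_const, probReal_univ, one_smul]
    apply Fb_init (mass_simplex M _) (af_nonneg η) (af_zero η) hT1 (mass_volume_le M)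
    rw [div_le_one (by positivity)]
    have : (0 : ℝ) ≤ M := by positivity
    linarith
  have hX3 : ∀ ω, X ω ≤ S (mass M (ρ t ω : Measure I)) + 1312 * η * t := by
    intro ω
    have h1 : X ω = Fb (af η) T (mass M (ρ t ω : Measure I)) -
        ∫ r in (0 : ℝ)..t, ∑ q ∈ Q M T, af η q.2.2.2 * ((q.2.2.2 : ℝ) + 1) *
          gS (lam nu0 (q.2.2.2 + 1 + 2)) (tf M (q.2.2.2 + 1) q.1 q.2.1 q.2.2.1)
            (ρ r.toNNReal ω : Measure I) := by
      rw [intervalIntegral.integral_finsetSum fun q _ =>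
        (hI q.1 q.2.1 q.2.2.1 q.2.2.2 ω).const_mul _, Fb_eq, sum_Q M T, ← Finset.sum_sub_distrib]
      apply Finset.sum_congr rfl
      intro q _
      rw [intervalIntegral.integral_const_mul, mul_sub]
    have h2 : -(1312 * η) * t ≤ ∫ r in (0 : ℝ)..t, ∑ q ∈ Q M T, af η q.2.2.2 *
        ((q.2.2.2 : ℝ) + 1) * gS (lam nu0 (q.2.2.2 + 1 + 2))
          (tf M (q.2.2.2 + 1) q.1 q.2.1 q.2.2.1) (ρ r.toNNReal ω : Measure I) := by
      have h3 : ∫ r in (0 : ℝ)..t, (-(1312 * η)) = -(1312 * η) * t := by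
        rw [intervalIntegral.integral_const, smul_eq_mul]; ring
      rw [← h3]
      apply intervalIntegral.integral_mono_on t.coe_nonneg intervalIntegrable_const
      · have hsumI := IntervalIntegrable.sum (μ := volume) (a := (0 : ℝ)) (b := t) (Q M T)
          (f := fun q (r : ℝ) => af η q.2.2.2 * ((q.2.2.2 : ℝ) + 1) *
            gS (lam nu0 (q.2.2.2 + 1 + 2)) (tf M (q.2.2.2 + 1) q.1 q.2.1 q.2.2.1)
              (ρ r.toNNReal ω : Measure I))
          (fun q _ => (hI q.1 q.2.1 q.2.2.1 q.2.2.2 ω).const_mul _)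
        refine hsumI.congr fun r _ => ?_
        simp only [Finset.sum_apply]
      · intro r _
        rw [← sum_Q M T (fun i j k s => af η s * ((s : ℝ) + 1) *
          gS (lam nu0 (s + 1 + 2)) (tf M (s + 1) i j k) (ρ r.toNNReal ω : Measure I))]
        exact generator_lower hη hT M _
    have h4 := Fb_le_S (mass_simplex M (ρ t ω : Measure I)) (af_nonneg η) (af_le_one hη.le) T
    rw [h1]
    linarith
  have hSint : Integrable (fun ω => S (mass M (ρ t ω : Measure I))) P :=
    Integrable.of_bound (C := 1) (measurable_S h M t).aestronglyMeasurable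
      (Eventually.of_forall fun ω => by
        rw [Real.norm_eq_abs, abs_of_nonneg (S_nonneg (mass_simplex M _))]
        exact S_le_one (mass_simplex M _))
  calc _ ≤ ∫ ω, X ω ∂P := hX2
    _ ≤ ∫ ω, (S (mass M (ρ t ω : Measure I)) + 1312 * η * t) ∂P :=
        integral_mono hXint (hSint.add (integrable_const _)) hX3
    _ = _ := by
        rw [integral_add hSint (integrable_const _), integral_const, probReal_univ, one_smul]

/-- The key lower bound, uniform in time. -/
theorem expect_lower [IsProbabilityMeasure P] (h : IsFlemingViot Lambda0 P 𝓕 ρ) (M : ℕ) (t : ℝ≥0) :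
    1 / 2 * (1 - 3 * (1 / ((M : ℝ) + 1))) ≤ ∫ ω, S (mass M (ρ t ω : Measure I)) ∂P := by
  apply le_of_forall_pos_le_add
  intro ε hε
  have hpos : (0 : ℝ) < 1312 * (t + 1) := by positivity
  have h1 := expect_lower_aux h M t (η := ε / (1312 * (t + 1))) (by positivity)
  have h2 : 1312 * (ε / (1312 * ((t : ℝ) + 1))) * t ≤ ε := by
    have : 1312 * (ε / (1312 * ((t : ℝ) + 1))) * t = ε * (t / (t + 1)) := by field_simp
    rw [this]
    apply mul_le_of_le_one_right hε.le
    rw [div_le_one (by positivity)]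
    linarith
  linarith

/-- If the population concentrates successively on two points then the functional vanishes. -/
lemma S_tendsto_zero (h : ℕ → ProbabilityMeasure I) {x y : I} {M : ℕ} (hxy : cell M x ≠ cell M y)
    (h1 : Tendsto (fun n => (h n : Measure I).real {x}) atTop (𝓝 1))
    (h2 : Tendsto (fun n => (h n : Measure I).real {y} / (h n : Measure I).real {x}ᶜ) atTop (𝓝 1)) :
    Tendsto (fun n => S (mass M (h n : Measure I))) atTop (𝓝 0) := by
  have h3 : Tendsto (fun n => (1 - (h n : Measure I).real {x}) +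
      (1 - ((h n : Measure I).real {y} / (h n : Measure I).real {x}ᶜ) ^ 2)) atTop
      (𝓝 ((1 - 1) + (1 - 1 ^ 2))) :=
    (tendsto_const_nhds.sub h1).add (tendsto_const_nhds.sub (h2.pow 2))
  have e : ((1 : ℝ) - 1) + (1 - 1 ^ 2) = 0 := by norm_num
  rw [e] at h3
  refine tendsto_of_tendsto_of_tendsto_of_le_of_le' tendsto_const_nhds h3
    (Eventually.of_forall fun n => S_nonneg (mass_simplex M _)) ?_
  filter_upwards [h2.eventually (lt_mem_nhds (by norm_num : (0 : ℝ) < 1))] with n hn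
  have hs := mass_simplex M (h n : Measure I)
  have hx := le_mass M (h n : Measure I) x
  have hy := le_mass M (h n : Measure I) y
  have hc : (h n : Measure I).real {x}ᶜ = 1 - (h n : Measure I).real {x} :=
    probReal_compl_eq_one_sub (measurableSet_singleton x)
  have hc0 : 0 ≤ (h n : Measure I).real {x}ᶜ := measureReal_nonneg
  have hy0 : 0 < (h n : Measure I).real {y} := by
    by_contra hneg
    have h0 : (h n : Measure I).real {y} = 0 := le_antisymm (not_lt.1 hneg) measureReal_nonneg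
    rw [h0, zero_div] at hn
    exact lt_irrefl _ hn
  have hsum : mass M (h n : Measure I) (cell M x) + mass M (h n : Measure I) (cell M y) ≤ 1 := by
    rw [← hs.sum, ← Finset.sum_pair hxy]
    exact Finset.sum_le_sum_of_subset_of_nonneg (Finset.subset_univ _) fun i _ _ => hs.nonneg i
  have hlt : mass M (h n : Measure I) (cell M x) < 1 := by linarith
  refine (S_le_pair hs hxy.symm hlt).trans ?_
  have hq0 : 0 ≤ (h n : Measure I).real {y} / (h n : Measure I).real {x}ᶜ := hn.le
  have hq : (h n : Measure I).real {y} / (h n : Measure I).real {x}ᶜ ≤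
      mass M (h n : Measure I) (cell M y) / (1 - mass M (h n : Measure I) (cell M x)) := by
    apply div_le_div₀ (hs.nonneg _) hy (by linarith)
    rw [hc]; linarith
  have hq2 := pow_le_pow_left₀ hq0 hq 2
  linarith

/-- The `Λ₀`-Fleming-Viot process does not admit an infinite sequence of Eves. -/
theorem not_admitsEves [IsProbabilityMeasure P] (h : IsFlemingViot Lambda0 P 𝓕 ρ) :
    ¬ AdmitsEves P ρ := by
  intro hE
  set Z : ℕ → Ω → ℝ≥0∞ := fun M ω =>
    limsup (fun n : ℕ => ENNReal.ofReal (S (mass M (ρ n ω : Measure I)))) atTop with hZ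
  have hmeas : ∀ M n, Measurable fun ω => ENNReal.ofReal (S (mass M (ρ (n : ℕ) ω : Measure I))) :=
    fun M n => (measurable_S h M n).ennreal_ofReal
  have hZm : ∀ M, Measurable (Z M) := fun M => Measurable.limsup fun n => hmeas M n
  have hle1 : ∀ M ω (n : ℕ), ENNReal.ofReal (S (mass M (ρ n ω : Measure I))) ≤ 1 := by
    intro M ω n
    rw [← ENNReal.ofReal_one]
    exact ENNReal.ofReal_le_ofReal (S_le_one (mass_simplex M _))
  have hZ1 : ∀ M ω, Z M ω ≤ 1 := by
    intro M ω
    apply limsup_le_of_le (by isBoundedDefault)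
    exact Eventually.of_forall (hle1 M ω)
  -- lower bound
  have hlow : ∀ M : ℕ, ENNReal.ofReal (1 / 2 * (1 - 3 * (1 / ((M : ℝ) + 1)))) ≤ ∫⁻ ω, Z M ω ∂P := by
    intro M
    have h1 : ∀ n : ℕ, ENNReal.ofReal (1 / 2 * (1 - 3 * (1 / ((M : ℝ) + 1)))) ≤
        ∫⁻ ω, ENNReal.ofReal (S (mass M (ρ n ω : Measure I))) ∂P := by
      intro n
      have hSint : Integrable (fun ω => S (mass M (ρ n ω : Measure I))) P :=
        Integrable.of_bound (C := 1) (measurable_S h M n).aestronglyMeasurable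
          (Eventually.of_forall fun ω => by
            rw [Real.norm_eq_abs, abs_of_nonneg (S_nonneg (mass_simplex M _))]
            exact S_le_one (mass_simplex M _))
      rw [← ofReal_integral_eq_lintegral_ofReal hSint
        (Eventually.of_forall fun ω => S_nonneg (mass_simplex M _))]
      exact ENNReal.ofReal_le_ofReal (expect_lower h M n)
    have h2 : limsup (fun n : ℕ => ∫⁻ ω, ENNReal.ofReal (S (mass M (ρ n ω : Measure I))) ∂P) atTop ≤
        ∫⁻ ω, Z M ω ∂P := by
      apply limsup_lintegral_le (g := fun _ => 1)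
      · exact fun n => hmeas M n
      · exact fun n => Eventually.of_forall fun ω => hle1 M ω n
      · simp
    refine le_trans ?_ h2
    exact le_limsup_of_frequently_le (Frequently.of_forall h1) (by isBoundedDefault)
  -- almost sure convergence
  have hae : ∀ᵐ ω ∂P, Tendsto (fun M => Z M ω) atTop (𝓝 0) := by
    filter_upwards [hE] with ω hω
    obtain ⟨e, he, hlim⟩ := hω
    have h1 : Tendsto (fun n : ℕ => (ρ n ω : Measure I).real {e 0}) atTop (𝓝 1) := by
      have := (hlim 0).comp (tendsto_natCast_atTop_atTop (R := ℝ≥0))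
      refine this.congr fun n => ?_
      simp only [Function.comp]
      have : {x : I | ∀ j < 0, x ≠ e j} = Set.univ := by
        ext x; simp
      rw [this, probReal_univ, div_one]
    have h2 : Tendsto (fun n : ℕ => (ρ n ω : Measure I).real {e 1} /
        (ρ n ω : Measure I).real {e 0}ᶜ) atTop (𝓝 1) := by
      have := (hlim 1).comp (tendsto_natCast_atTop_atTop (R := ℝ≥0))
      refine this.congr fun n => ?_
      simp only [Function.comp]
      have : {x : I | ∀ j < 1, x ≠ e j} = {e 0}ᶜ := by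
        ext x
        simp only [Set.mem_ofPred_eq, Set.mem_compl_iff, Set.mem_singleton_iff]
        constructor
        · intro hx; exact hx 0 (by norm_num)
        · intro hx j hj
          have : j = 0 := by omega
          rw [this]; exact hx
      rw [this]
    have hne : e 0 ≠ e 1 := fun h => by simpa using he h
    apply tendsto_const_nhds.congr'
    filter_upwards [cell_ne hne] with M hM
    have h3 := S_tendsto_zero (fun n : ℕ => ρ n ω) hM h1 h2
    have h4 : Tendsto (fun n : ℕ => ENNReal.ofReal (S (mass M (ρ n ω : Measure I)))) atTop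
        (𝓝 (ENNReal.ofReal 0)) := ENNReal.tendsto_ofReal h3
    rw [ENNReal.ofReal_zero] at h4
    exact h4.limsup_eq.symm
  have hconv : Tendsto (fun M => ∫⁻ ω, Z M ω ∂P) atTop (𝓝 (∫⁻ _, (0 : ℝ≥0∞) ∂P)) :=
    tendsto_lintegral_of_dominated_convergence (fun _ => 1) hZm
      (fun M => Eventually.of_forall (hZ1 M)) (by simp) hae
  rw [lintegral_zero] at hconv
  have h5 : ∀ᶠ M in atTop, ENNReal.ofReal (1 / 8) ≤ ∫⁻ ω, Z M ω ∂P := by
    filter_upwards [eventually_ge_atTop 3] with M hM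
    refine le_trans (ENNReal.ofReal_le_ofReal ?_) (hlow M)
    have hM' : (3 : ℝ) ≤ M := by exact_mod_cast hM
    have : 1 / ((M : ℝ) + 1) ≤ 1 / 4 := one_div_le_one_div_of_le (by norm_num) (by linarith)
    linarith
  have h6 := ge_of_tendsto hconv h5
  have h7 : (0 : ℝ≥0∞) < ENNReal.ofReal (1 / 8) := ENNReal.ofReal_pos.2 (by norm_num)
  exact absurd h6 (not_le.2 h7)

end process

end Pool.Agent.LambdaFV
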